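import Pool.Agent.Y916.Sl.DegF

/-!
# The number of algebraic integers of bounded degree: a lower bound
-/

set_option autoImplicit false

open Module

namespace Pool.Agent.Y916.Sl

/-- algebraic integers of degree at most `m` with all conjugates at most `T` -/
def SInt (m T : ℕ) (ξ : ℂ) : Prop :=
  IsIntegral ℤ ξ ∧ (minpoly ℚ ξ).natDegree ≤ m ∧ ∀ z : ℂ, Polynomial.aeval z (minpoly ℚ ξ) = 0 → ‖z‖ ≤ T

theorem SInt.aint {m T : ℕ} {ξ : ℂ} (h : SInt m T ξ) : AInt m T ξ := aint_of (Nat.cast_nonneg T) h.1 h.2.1 h.2.2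

theorem sint_fin (m T : ℕ) : {ξ : ℂ | SInt m T ξ}.Finite :=
  (Finset.finite_toSet (NF m T)).subset fun _ h => Finset.mem_coe.2 (mem_NF.2 (SInt.aint h))

theorem pol_monic {m : ℕ} (a : Fin m → ℤ) : (pol m a).Monic :=
  Polynomial.monic_X_pow_add (Polynomial.degree_sum_fin_lt a)

theorem pol_natDegree {m : ℕ} (a : Fin m → ℤ) : (pol m a).natDegree = m := by
  refine Polynomial.natDegree_eq_of_degree_eq_some ?_
  unfold pol
  rw [Polynomial.degree_add_eq_left_of_degree_lt, Polynomial.degree_X_pow]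
  rw [Polynomial.degree_X_pow]
  exact Polynomial.degree_sum_fin_lt a

theorem pol_coeff_lt {m : ℕ} (a : Fin m → ℤ) (i : Fin m) : (pol m a).coeff i = a i := by
  unfold pol
  rw [Polynomial.coeff_add, Polynomial.coeff_X_pow, if_neg i.2.ne, zero_add, Polynomial.finset_sum_coeff,
    Finset.sum_eq_single i]
  · simp
  · intro j _ hj
    rw [Polynomial.coeff_C_mul, Polynomial.coeff_X_pow, if_neg, mul_zero]
    exact fun h => hj (Fin.ext h.symm)
  · intro h
    exact absurd (Finset.mem_univ i) h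

theorem pol_root_bound {m : ℕ} (hm : 1 ≤ m) (a : Fin m → ℤ) {T : ℕ} (ha : ∀ i : Fin m, (m : ℝ) * |((a i : ℤ) : ℝ)| ≤ (T : ℝ) ^ (m - (i : ℕ)))
    {z : ℂ} (hz : Polynomial.aeval z (pol m a) = 0) : ‖z‖ ≤ T := by
  by_contra hcon
  push Not at hcon
  have hT0 : (0 : ℝ) ≤ T := Nat.cast_nonneg T
  have h1 : z ^ m = -∑ i : Fin m, ((a i : ℤ) : ℂ) * z ^ (i : ℕ) := by
    have h2 : Polynomial.aeval z (pol m a) = z ^ m + ∑ i : Fin m, ((a i : ℤ) : ℂ) * z ^ (i : ℕ) := by
      unfold pol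
      simp [map_sum]
    rw [h2] at hz
    linear_combination hz
  have h2 : ‖z‖ ^ m ≤ ∑ i : Fin m, |((a i : ℤ) : ℝ)| * ‖z‖ ^ (i : ℕ) := by
    rw [← norm_pow, h1, norm_neg]
    refine (norm_sum_le _ _).trans (Finset.sum_le_sum fun i _ => ?_)
    rw [norm_mul, Complex.norm_intCast, norm_pow]
  have h3 : (m : ℝ) * ‖z‖ ^ m < (m : ℝ) * ‖z‖ ^ m := by
    calc (m : ℝ) * ‖z‖ ^ m ≤ m * ∑ i : Fin m, |((a i : ℤ) : ℝ)| * ‖z‖ ^ (i : ℕ) :=
          mul_le_mul_of_nonneg_left h2 (Nat.cast_nonneg m)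
      _ = ∑ i : Fin m, (m * |((a i : ℤ) : ℝ)|) * ‖z‖ ^ (i : ℕ) := by
          rw [Finset.mul_sum]
          exact Finset.sum_congr rfl fun i _ => by ring
      _ ≤ ∑ i : Fin m, (T : ℝ) ^ (m - (i : ℕ)) * ‖z‖ ^ (i : ℕ) :=
          Finset.sum_le_sum fun i _ => mul_le_mul_of_nonneg_right (ha i) (by positivity)
      _ < ∑ _i : Fin m, ‖z‖ ^ m := by
          refine Finset.sum_lt_sum_of_nonempty ⟨⟨0, hm⟩, Finset.mem_univ _⟩ fun i _ => ?_
          have hz0 : 0 < ‖z‖ := lt_of_le_of_lt hT0 hcon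
          have h4 : (T : ℝ) ^ (m - (i : ℕ)) < ‖z‖ ^ (m - (i : ℕ)) :=
            pow_lt_pow_left₀ hcon hT0 (by have := i.2; omega)
          calc (T : ℝ) ^ (m - (i : ℕ)) * ‖z‖ ^ (i : ℕ) < ‖z‖ ^ (m - (i : ℕ)) * ‖z‖ ^ (i : ℕ) :=
                mul_lt_mul_of_pos_right h4 (by positivity)
            _ = ‖z‖ ^ m := by
                rw [← pow_add]
                congr 1
                have := i.2
                omega
      _ = (m : ℝ) * ‖z‖ ^ m := by
          rw [Finset.sum_const, Finset.card_univ, Fintype.card_fin, nsmul_eq_mul]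
  exact lt_irrefl _ h3

/-- Eisenstein -/
theorem pol_irred {m : ℕ} (hm : 1 ≤ m) (a : Fin m → ℤ) (ha : ∀ i, 2 ∣ a i) (h0 : ¬ 4 ∣ a ⟨0, hm⟩) :
    Irreducible ((pol m a).map (Int.castRingHom ℚ)) := by
  have hmon := pol_monic a
  have hirr : Irreducible (pol m a) := by
    have hprime : (Ideal.span {(2 : ℤ)}).IsPrime :=
      (Ideal.span_singleton_prime two_ne_zero).2 Int.prime_two
    have hdeg : (pol m a).degree = m := by
      rw [Polynomial.degree_eq_natDegree hmon.ne_zero, pol_natDegree]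
    refine Polynomial.irreducible_of_eisenstein_criterion hprime ?_ ?_ ?_ ?_ hmon.isPrimitive
    · rw [hmon.leadingCoeff, Ideal.mem_span_singleton]
      norm_num
    · intro n hn
      rw [hdeg] at hn
      have hn' : n < m := by exact_mod_cast hn
      rw [Ideal.mem_span_singleton, pol_coeff_lt a ⟨n, hn'⟩]
      exact ha _
    · rw [hdeg]
      exact_mod_cast hm
    · rw [Ideal.span_singleton_pow, Ideal.mem_span_singleton, pol_coeff_lt a ⟨0, hm⟩]
      norm_num
      exact h0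
  have h1 := (hmon.irreducible_iff_irreducible_map_fraction_map (K := ℚ)).1 hirr
  exact h1

/-- **Many points** -/
theorem many (m : ℕ) (hm : 1 ≤ m) : ∃ c : ℝ, 0 < c ∧ ∀ T : ℕ, 1 ≤ T →
    c * (T : ℝ) ^ Mm m ≤ ({ξ : ℂ | SInt m T ξ}.ncard : ℝ) := by
  classical
  have hm0 : (0 : ℝ) < m := by exact_mod_cast hm
  set c₁ : ℝ := (1 / (8 * m)) ^ m with hc₁
  set c₂ : ℝ := 1 / (8 * m) ^ Mm m with hc₂
  refine ⟨min c₁ c₂, lt_min (by positivity) (by positivity), fun T hT => ?_⟩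
  have hT1 : (1 : ℝ) ≤ T := by exact_mod_cast hT
  have hfin := sint_fin m T
  rcases lt_or_ge T (8 * m) with hTm | hTm
  · have h1 : 1 ≤ {ξ : ℂ | SInt m T ξ}.ncard := by
      refine Nat.one_le_iff_ne_zero.2 (Set.ncard_ne_zero_of_mem (a := (0 : ℂ)) ?_ hfin)
      refine ⟨isIntegral_zero, ?_, fun z hz => ?_⟩
      · rw [minpoly.zero, Polynomial.natDegree_X]
        exact hm
      · rw [minpoly.zero, Polynomial.aeval_X] at hz
        rw [hz, norm_zero]
        exact Nat.cast_nonneg T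
    have h2 : (T : ℝ) ^ Mm m ≤ (8 * m) ^ Mm m := by
      refine pow_le_pow_left₀ (by positivity) ?_ _
      exact_mod_cast hTm.le
    calc min c₁ c₂ * (T : ℝ) ^ Mm m ≤ c₂ * (8 * m) ^ Mm m := mul_le_mul (min_le_right _ _) h2 (by positivity) (by positivity)
      _ = 1 := by
          rw [hc₂]
          field_simp
      _ ≤ _ := by exact_mod_cast h1
  -- large `T`
  set i₀ : Fin m := ⟨0, hm⟩ with hi₀
  set Nb : Fin m → ℕ := fun i => if i = i₀ then T ^ m / (4 * m) else T ^ (m - (i : ℕ)) / (2 * m) + 1 with hNb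
  set aa : (Fin m → ℕ) → Fin m → ℤ := fun b i => if i = i₀ then 4 * (b i : ℤ) + 2 else 2 * (b i : ℤ) with haa
  set Bx := Fintype.piFinset fun i : Fin m => Finset.range (Nb i) with hBx
  have hev : ∀ b i, 2 ∣ aa b i := by
    intro b i
    rw [haa]
    simp only
    split_ifs
    · exact ⟨2 * b i + 1, by ring⟩
    · exact ⟨b i, rfl⟩
  have h4 : ∀ b, ¬ 4 ∣ aa b ⟨0, hm⟩ := by
    intro b h
    rw [haa] at h
    simp only [hi₀, if_true] at h
    omega
  have hroot : ∀ b, ∃ z : ℂ, Polynomial.aeval z (pol m (aa b)) = 0 := by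
    intro b
    obtain ⟨z, hz⟩ := IsAlgClosed.exists_root ((pol m (aa b)).map (Int.castRingHom ℂ)) (by
      rw [Polynomial.degree_eq_natDegree ((pol_monic (aa b)).map _).ne_zero, (pol_monic (aa b)).natDegree_map,
        pol_natDegree]
      exact_mod_cast (by omega : m ≠ 0))
    refine ⟨z, ?_⟩
    rw [Polynomial.IsRoot.def, Polynomial.eval_map] at hz
    exact hz
  choose g hg using hroot
  have hmin : ∀ b, minpoly ℚ (g b) = (pol m (aa b)).map (Int.castRingHom ℚ) := by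
    intro b
    symm
    refine minpoly.eq_of_irreducible_of_monic (pol_irred hm _ (hev b) (h4 b)) ?_ ((pol_monic _).map _)
    exact (Polynomial.aeval_map_algebraMap ℚ (g b) (pol m (aa b))).trans (hg b)
  have hinj : Set.InjOn g (Bx : Set (Fin m → ℕ)) := by
    intro b _ b' _ h
    have h1 : (pol m (aa b)).map (Int.castRingHom ℚ) = (pol m (aa b')).map (Int.castRingHom ℚ) := by
      rw [← hmin, ← hmin, h]
    have h2 := Polynomial.map_injective _ (RingHom.injective_int (Int.castRingHom ℚ)) h1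
    funext i
    have h3 : aa b i = aa b' i := by rw [← pol_coeff_lt (aa b) i, ← pol_coeff_lt (aa b') i, h2]
    rw [haa] at h3
    simp only at h3
    split_ifs at h3 <;> omega
  have hbd : ∀ b ∈ Bx, ∀ i : Fin m, (m : ℝ) * |((aa b i : ℤ) : ℝ)| ≤ (T : ℝ) ^ (m - (i : ℕ)) := by
    intro b hb i
    rw [hBx, Fintype.mem_piFinset] at hb
    have hbi := Finset.mem_range.1 (hb i)
    have key : m * (aa b i).natAbs ≤ T ^ (m - (i : ℕ)) := by
      rw [hNb] at hbi
      rw [haa]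
      simp only at hbi ⊢
      by_cases hi : i = i₀
      · rw [if_pos hi] at hbi ⊢
        have h1 : (4 * (b i : ℤ) + 2).natAbs = 4 * b i + 2 := by omega
        have h2 : m - (i : ℕ) = m := by rw [hi]; rfl
        rw [h1, h2]
        calc m * (4 * b i + 2) ≤ m * (4 * (b i + 1)) := Nat.mul_le_mul_left _ (by omega)
          _ = (b i + 1) * (4 * m) := by ring
          _ ≤ T ^ m / (4 * m) * (4 * m) := Nat.mul_le_mul_right _ hbi
          _ ≤ T ^ m := Nat.div_mul_le_self _ _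
      · rw [if_neg hi] at hbi ⊢
        have h1 : (2 * (b i : ℤ)).natAbs = 2 * b i := by omega
        rw [h1]
        calc m * (2 * b i) = b i * (2 * m) := by ring
          _ ≤ T ^ (m - (i : ℕ)) / (2 * m) * (2 * m) := Nat.mul_le_mul_right _ (by omega)
          _ ≤ _ := Nat.div_mul_le_self _ _
    have h5 : |((aa b i : ℤ) : ℝ)| = ((aa b i).natAbs : ℝ) := by
      rw [Nat.cast_natAbs, Int.cast_abs]
    rw [h5]
    exact_mod_cast key
  have hsub : (Bx.image g : Set ℂ) ⊆ {ξ : ℂ | SInt m T ξ} := by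
    intro ξ hξ
    rw [Finset.mem_coe, Finset.mem_image] at hξ
    obtain ⟨b, hb, rfl⟩ := hξ
    refine ⟨⟨pol m (aa b), pol_monic _, hg b⟩, ?_, fun z hz => ?_⟩
    · rw [hmin, (pol_monic _).natDegree_map, pol_natDegree]
    · rw [hmin] at hz
      exact pol_root_bound hm (aa b) (hbd b hb) ((Polynomial.aeval_map_algebraMap ℚ z (pol m (aa b))).symm.trans hz)
  have hcard : Bx.card ≤ {ξ : ℂ | SInt m T ξ}.ncard := by
    rw [← Finset.card_image_of_injOn hinj, ← Set.ncard_coe_finset]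
    exact Set.ncard_le_ncard hsub hfin
  have hNbR : ∀ i : Fin m, 1 / (8 * m) * (T : ℝ) ^ (m - (i : ℕ)) ≤ (Nb i : ℝ) := by
    intro i
    rw [hNb]
    simp only
    by_cases hi : i = i₀
    · rw [if_pos hi]
      have h2 : m - (i : ℕ) = m := by rw [hi]; rfl
      rw [h2]
      have h3 : T ^ m < (T ^ m / (4 * m) + 1) * (4 * m) := by
        have h5 := Nat.lt_div_mul_add (a := T ^ m) (b := 4 * m) (by omega)
        calc T ^ m < T ^ m / (4 * m) * (4 * m) + 4 * m := h5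
          _ = _ := by ring
      have h4 : 8 * m ≤ T ^ m := hTm.trans (Nat.le_self_pow (by omega) T)
      have h3R : (T : ℝ) ^ m < (((T ^ m / (4 * m) : ℕ) : ℝ) + 1) * (4 * m) := by exact_mod_cast h3
      have h4R : 8 * (m : ℝ) ≤ (T : ℝ) ^ m := by exact_mod_cast h4
      rw [one_div_mul_eq_div, div_le_iff₀ (by positivity)]
      nlinarith
    · rw [if_neg hi]
      have h3 : T ^ (m - (i : ℕ)) < (T ^ (m - (i : ℕ)) / (2 * m) + 1) * (2 * m) := by
        have h5 := Nat.lt_div_mul_add (a := T ^ (m - (i : ℕ))) (b := 2 * m) (by omega)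
        calc T ^ (m - (i : ℕ)) < T ^ (m - (i : ℕ)) / (2 * m) * (2 * m) + 2 * m := h5
          _ = _ := by ring
      have h3R : (T : ℝ) ^ (m - (i : ℕ)) < (((T ^ (m - (i : ℕ)) / (2 * m) : ℕ) : ℝ) + 1) * (2 * m) := by
        exact_mod_cast h3
      rw [one_div_mul_eq_div, div_le_iff₀ (by positivity)]
      push_cast
      have h6 : 0 ≤ (((T ^ (m - (i : ℕ)) / (2 * m) : ℕ) : ℝ) + 1) * (2 * m) := by positivity
      push_cast at h3R h6
      nlinarith
  calc min c₁ c₂ * (T : ℝ) ^ Mm m ≤ c₁ * (T : ℝ) ^ Mm m := mul_le_mul_of_nonneg_right (min_le_left _ _) (by positivity)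
    _ = ∏ i : Fin m, (1 / (8 * m) * (T : ℝ) ^ (m - (i : ℕ))) := by
        rw [Finset.prod_mul_distrib, Finset.prod_const, Finset.card_univ, Fintype.card_fin, Finset.prod_pow_eq_pow_sum]
        rfl
    _ ≤ ∏ i : Fin m, (Nb i : ℝ) := Finset.prod_le_prod (fun i _ => by positivity) fun i _ => hNbR i
    _ = ((Bx.card : ℕ) : ℝ) := by
        rw [hBx, Fintype.card_piFinset]
        push_cast
        exact Finset.prod_congr rfl fun i _ => by rw [Finset.card_range]
    _ ≤ _ := by exact_mod_cast hcard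

end Pool.Agent.Y916.Sl

namespace Pool.Agent.Y916.Sl

/-- the bound as a proportion -/
theorem prop_bound {c₁ c C : ℝ} (hc₁ : 0 < c₁) (hC : 0 ≤ C) {k M T : ℕ} (hT : 1 ≤ T) {N : ℝ}
    (h : c₁ * (T : ℝ) ^ M ≤ N) : C * (T : ℝ) ^ (((k * M : ℕ) : ℝ) - c) ≤ C / c₁ ^ k * (T : ℝ) ^ (-c) * N ^ k := by
  have hT0 : (0 : ℝ) < T := by
    have : (1 : ℝ) ≤ T := by exact_mod_cast hT
    linarith
  have h1 : (T : ℝ) ^ (((k * M : ℕ) : ℝ) - c) = ((T : ℝ) ^ M) ^ k * (T : ℝ) ^ (-c) := by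
    rw [sub_eq_add_neg, Real.rpow_add hT0, Real.rpow_natCast, ← pow_mul, mul_comm M k]
  have h2 : ((T : ℝ) ^ M) ^ k ≤ N ^ k / c₁ ^ k := by
    rw [le_div_iff₀ (by positivity), ← mul_pow, mul_comm]
    exact pow_le_pow_left₀ (by positivity) h k
  rw [h1]
  calc C * (((T : ℝ) ^ M) ^ k * (T : ℝ) ^ (-c)) ≤ C * ((N ^ k / c₁ ^ k) * (T : ℝ) ^ (-c)) :=
        mul_le_mul_of_nonneg_left (mul_le_mul_of_nonneg_right h2 (by positivity)) hC
    _ = _ := by ring

end Pool.Agent.Y916.Sl
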