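import Pool.Agent.Y916.Sl.SalT
import Pool.Agent.Y737.SL.Sqi

/-!
# The constants of the convergent integrals are their limits at infinity
-/

set_option autoImplicit false

open Module PowerSeries Filter Topology Bornology

namespace Pool.Agent.Y916.Sl

open Pool.Agent.Y113 Pool.Agent.Y916.AW Pool.Agent.Y916.Al Pool.Agent.Y916.Hy Pool.Agent.Y916.Sa Pool.Agent.Y916.Fld

theorem limS {s : ℕ} {F q : Fin s → Polynomial ℤ} (hG : ∀ a, GoodP (F a) (q a)) {u₀ : ℂ} {R' : ℝ}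
    {Φ : Id F q → ℂ → ℂ} {κ : Id F q → ℂ} (hκ : ∀ x : ℂ, R' < ‖x‖ → x / u₀ ∈ Complex.slitPlane → ∀ p : Id F q,
      ((PP F q p.1).leadingCoeff : ℂ) * (Φ p x - κ p) ^ 2 =
        x ^ (2 * ((p.2 : ℕ) : ℤ) + 2 - (PP F q p.1).natDegree) * evc (1 / x) (US (PP F q p.1) 0 p.2) ^ 2)
    (p : Id F q) (hp : 2 * (p.2 : ℕ) + 2 < (F p.1).natDegree + 2 * (q p.1).natDegree) :
    Tendsto (Φ p) (cobounded ℂ ⊓ 𝓟 {x : ℂ | x / u₀ ∈ Complex.slitPlane}) (𝓝 (κ p)) := by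
  have hd := natDeg_PP hG p.1
  have hO := (goodO (hG p.1)).1
  have hlead : ((PP F q p.1).leadingCoeff : ℂ) ≠ 0 := by exact_mod_cast hO.pos.ne'
  obtain ⟨E, hE⟩ := Pool.Agent.Y737.SL.US_bound hO
  have hj : (p.2 : ℕ) < (PP F q p.1).natDegree - 1 := by
    rw [hd]
    omega
  set B : ℝ := (((0 : ℕ) : ℝ) + 2) ^ E with hB
  have hB1 : 1 ≤ B := one_le_pow₀ (by norm_num)
  have hcont : ContinuousAt (fun z : ℂ => evc z (US (PP F q p.1) 0 p.2)) 0 := by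
    have h1 := Pool.Agent.Y737.SL.evc_diff (f := US (PP F q p.1) 0 p.2) (A := B) (B := B) (by linarith)
      (ρ := 1 / (2 * B)) (by positivity) (by
        rw [mul_one_div, div_lt_one (by positivity)]
        linarith) (by linarith) (fun m => by
        have h2 := hE 0 p.2 hj m
        have h3 : (((((0 : ℕ) : ℝ) + 2) ^ E) ^ (m + 1)) = B * B ^ m := by
          rw [hB, pow_succ, mul_comm]
        exact h2.trans h3.le)
    exact (h1.continuousOn.continuousAt (Metric.ball_mem_nhds _ (by positivity)))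
  have hinv : Tendsto (fun x : ℂ => 1 / x) (cobounded ℂ) (𝓝 0) := by
    simp only [one_div]
    exact Filter.tendsto_inv₀_cobounded
  have h1 : Tendsto (fun x : ℂ => evc (1 / x) (US (PP F q p.1) 0 p.2) ^ 2) (cobounded ℂ)
      (𝓝 (evc 0 (US (PP F q p.1) 0 p.2) ^ 2)) := (hcont.tendsto.comp hinv).pow 2
  obtain ⟨k, hk⟩ : ∃ k : ℕ, 2 * ((p.2 : ℕ) : ℤ) + 2 - ((PP F q p.1).natDegree : ℤ) = -((k + 1 : ℕ) : ℤ) := by
    refine ⟨(PP F q p.1).natDegree - (2 * (p.2 : ℕ) + 2) - 1, ?_⟩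
    rw [hd]
    omega
  have h2 : Tendsto (fun x : ℂ => x ^ (2 * ((p.2 : ℕ) : ℤ) + 2 - ((PP F q p.1).natDegree : ℤ))) (cobounded ℂ) (𝓝 0) := by
    rw [hk]
    have h3 : (fun x : ℂ => x ^ (-((k + 1 : ℕ) : ℤ))) = fun x : ℂ => (1 / x) ^ (k + 1) := by
      funext x
      rw [zpow_neg, zpow_natCast, one_div, inv_pow]
    rw [h3]
    have h4 := hinv.pow (k + 1)
    simpa using h4
  have h3 := h2.mul h1
  rw [zero_mul] at h3
  have h4 : Tendsto (fun x : ℂ => (Φ p x - κ p) ^ 2) (cobounded ℂ ⊓ 𝓟 {x : ℂ | x / u₀ ∈ Complex.slitPlane}) (𝓝 0) := by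
    have h5 : Tendsto (fun x : ℂ => ((PP F q p.1).leadingCoeff : ℂ)⁻¹ *
        (x ^ (2 * ((p.2 : ℕ) : ℤ) + 2 - ((PP F q p.1).natDegree : ℤ)) * evc (1 / x) (US (PP F q p.1) 0 p.2) ^ 2))
        (cobounded ℂ ⊓ 𝓟 {x : ℂ | x / u₀ ∈ Complex.slitPlane}) (𝓝 0) := by
      have h6 := (h3.const_mul (((PP F q p.1).leadingCoeff : ℂ)⁻¹)).mono_left
        (inf_le_left : cobounded ℂ ⊓ 𝓟 {x : ℂ | x / u₀ ∈ Complex.slitPlane} ≤ cobounded ℂ)
      rwa [mul_zero] at h6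
    refine h5.congr' ?_
    have h7 : ∀ᶠ x : ℂ in cobounded ℂ, R' < ‖x‖ := tendsto_norm_cobounded_atTop.eventually_gt_atTop R'
    filter_upwards [h7.filter_mono inf_le_left, (mem_inf_of_right (mem_principal_self _) :
      {x : ℂ | x / u₀ ∈ Complex.slitPlane} ∈ cobounded ℂ ⊓ 𝓟 {x : ℂ | x / u₀ ∈ Complex.slitPlane})] with x hx1 hx2
    rw [← hκ x hx1 hx2 p, ← mul_assoc, inv_mul_cancel₀ hlead, one_mul]
  rw [tendsto_iff_norm_sub_tendsto_zero]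
  have h5 := (Real.continuous_sqrt.tendsto _).comp h4.norm
  rw [norm_zero, Real.sqrt_zero] at h5
  refine h5.congr fun x => ?_
  simp only [Function.comp_apply]
  rw [norm_pow, Real.sqrt_sq (norm_nonneg _)]

end Pool.Agent.Y916.Sl
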