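import Pool.Agent.Y916.Sl.Cnt
import Pool.Agent.Y916.Al.WinP
import Pool.Agent.Y916.Om.WF

/-!
# Windows around points of number fields for arbitrary families, relative to fixed constants
-/

set_option autoImplicit false

open Module

namespace Pool.Agent.Y916.Sl

open Pool.Agent.Y113 Pool.Agent.Y916.AW Pool.Agent.Y916.Al

theorem windowU {σ : Type} [Fintype σ] [DecidableEq σ] (val : ℂ → ℕ → σ → ℂ) (hval : InpA val) (x : ℂ → σ → ℂ)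
    (Dm : ℂ → Prop) {υ : Type} [Fintype υ] (u : υ → ℂ) (m e E₁ : ℕ) (hlink : LinkU val x Dm u m e E₁)
    (r d δ τ A : ℕ) :
    ∃ E : ℕ, ∀ (H : ℕ) (K₁ : IntermediateField ℚ ℂ) (ξ : K₁) (X : ℝ), FiniteDimensional ℚ K₁ → finrank ℚ K₁ ≤ m →
      Al.Pt K₁ ξ X → ((H : ℝ) + 2) ^ E ≤ ‖(ξ : ℂ)‖ → X ≤ ‖(ξ : ℂ)‖ ^ A → ∀ w : Fin τ → ℂ, ∃ S : Finset ℕ,
        (S.card : Cardinal) ≤ τ + 1 + Algebra.trdeg ℚ (IntermediateField.adjoin ℚ (Set.range u)) ∧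
        ∀ g : Fin r → ℕ, Function.Injective g → (∀ i, 1 ≤ g i ∧ g i ≤ H ∧ g i ∉ S ∧ Dm ((ξ : ℂ) + g i)) →
        ∀ K : IntermediateField ℚ ℂ, FiniteDimensional ℚ K → finrank ℚ K ≤ d →
        ∀ y : Fin r × σ → ℂ, (∀ p, ∃ b : K, b ≠ 0 ∧ y p - b * x ((ξ : ℂ) + g p.1) p.2 ∈
            Submodule.span K (insert 1 (Set.range (Sum.elim w u)))) →
        ∀ P : MvPolynomial ((Fin τ ⊕ υ) ⊕ Fin r × σ) K,
          P.totalDegree ≤ δ → MvPolynomial.aeval (Sum.elim (Sum.elim w u) y) P = 0 →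
          MvPolynomial.aeval (Sum.elim (fun j => MvPolynomial.C (Sum.elim w u j)) MvPolynomial.X) P =
            (0 : MvPolynomial (Fin r × σ) ℂ) := by
  classical
  obtain ⟨T, hTc, hT⟩ := Om.exists_base u
  obtain ⟨A', B', hAB⟩ := Om.Dom.exists u T hT
  obtain ⟨Ev, hEv⟩ := inpI hval m A
  obtain ⟨E₂, hE₂⟩ := Om.winF Ev (σ := σ) r d e δ (τ + T.card + 1) A' B'
  refine ⟨E₁ + E₂, fun H K₁ ξ X hK₁f hK₁d hPt hξ hXξ w => ?_⟩
  have hHR : (1 : ℝ) ≤ (H : ℝ) + 2 := by linarith [(Nat.cast_nonneg H : (0 : ℝ) ≤ H)]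
  have hbig : ∀ E ≤ E₁ + E₂, (((H + 2) ^ E : ℕ) : ℝ) ≤ ‖(ξ : ℂ)‖ := fun E hE => by
    push_cast
    exact (pow_le_pow_right₀ hHR hE).trans hξ
  set i : PtI m A := ⟨K₁, ξ, X, hK₁f, hK₁d, hPt, hXξ⟩ with hi
  have hsize : (H + 2) ^ E₂ ≤ i.size := Nat.le_floor (hbig E₂ (by omega))
  obtain ⟨K₀, hK₀f, hK₀d, w₀, hK₀⟩ := hlink K₁ ξ hK₁f hK₁d
  set v : (Fin τ ⊕ υ) ⊕ Unit → ℂ := Sum.elim (Sum.elim w u) (fun _ => w₀) with hv
  set T' : Finset ((Fin τ ⊕ υ) ⊕ Unit) := ((Finset.univ : Finset (Fin τ)).disjSum T).disjSum Finset.univ with hT'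
  have hT'c : T'.card = τ + T.card + 1 := by
    rw [hT', Finset.card_disjSum, Finset.card_disjSum]
    simp
  have hdom : Om.Dom A' B' v T' := by
    refine hAB.of v T' ?_ ?_
    · intro j hj
      exact ⟨Sum.inl (Sum.inr j), by simp [hT', hj], by simp [hv]⟩
    · rintro ((j | j) | j)
      · exact Or.inl (by simp [hT'])
      · exact Or.inr ⟨j, by simp [hv]⟩
      · exact Or.inl (by simp [hT'])
  obtain ⟨S, hS, hwin⟩ := hE₂ ℂ (PtI m A) PtI.size _ hEv H i hsize _ v T' hT'c hdom K₀ hK₀f hK₀d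
  refine ⟨S, ?_, ?_⟩
  · calc (S.card : Cardinal) ≤ ((τ + T.card + 1 : ℕ) : Cardinal) := by exact_mod_cast hS
      _ = (τ : Cardinal) + 1 + (T.card : Cardinal) := by push_cast; ring
      _ ≤ _ := by gcongr
  intro g hn hnb K hKf hKd y hy P hPd hPv
  have hsub : Submodule.span K (insert (1 : ℂ) (Set.range (Sum.elim w u))) ≤
      Submodule.span K (insert (1 : ℂ) (Set.range v)) := by
    refine Submodule.span_mono ?_
    rintro _ (rfl | ⟨j, rfl⟩)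
    · exact Set.mem_insert _ _
    · exact Set.mem_insert_of_mem _ ⟨Sum.inl j, rfl⟩
  have h9 := hwin g hn (fun i => ⟨(hnb i).1, (hnb i).2.1, (hnb i).2.2.1⟩)
    (fun p => x ((ξ : ℂ) + g p.1) p.2) (fun p => by
      obtain ⟨a, ha, h1⟩ := hK₀ (g p.1) (hnb p.1).1 (by
        refine le_trans ?_ (hbig E₁ (by omega))
        have h2 : (g p.1 + 2) ^ E₁ ≤ (H + 2) ^ E₁ := Nat.pow_le_pow_left (by have := (hnb p.1).2.1; omega) _
        exact_mod_cast h2) (hnb p.1).2.2.2 p.2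
      refine ⟨a, ha, Submodule.span_mono (Set.insert_subset_insert ?_) h1⟩
      rintro _ (rfl | ⟨j, rfl⟩)
      · exact ⟨Sum.inr (), rfl⟩
      · exact ⟨Sum.inl (Sum.inr j), rfl⟩) K hKf hKd y (fun p => by
      obtain ⟨b, hb, h1⟩ := hy p
      exact ⟨b, hb, hsub h1⟩)
    (MvPolynomial.rename (Sum.map Sum.inl id) P) ((MvPolynomial.totalDegree_rename_le _ _).trans hPd) (by
      rw [MvPolynomial.aeval_rename, ← hPv]
      congr 2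
      funext x
      rcases x with i | x <;> rfl)
  rw [MvPolynomial.aeval_rename] at h9
  have h10 : ((Sum.elim (fun j => MvPolynomial.C (v j)) MvPolynomial.X :
      ((Fin τ ⊕ υ) ⊕ Unit) ⊕ Fin r × σ → MvPolynomial (Fin r × σ) ℂ) ∘ Sum.map Sum.inl id) =
      Sum.elim (fun j => MvPolynomial.C (Sum.elim w u j)) MvPolynomial.X := by
    funext x
    rcases x with i | x <;> rfl
  rw [h10] at h9
  exact h9

/-- the same for a point given by an integer polynomial -/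
theorem windowHt {σ : Type} [Fintype σ] [DecidableEq σ] (val : ℂ → ℕ → σ → ℂ) (hval : InpA val) (x : ℂ → σ → ℂ)
    (Dm : ℂ → Prop) {υ : Type} [Fintype υ] (u : υ → ℂ) (m e E₁ : ℕ) (hlink : LinkU val x Dm u m e E₁)
    (r d δ τ A : ℕ) :
    ∃ E : ℕ, ∀ (H : ℕ) (ξ : ℂ), ((H : ℝ) + 2) ^ E ≤ ‖ξ‖ → Ht m A ξ → ∀ w : Fin τ → ℂ, ∃ S : Finset ℕ,
        (S.card : Cardinal) ≤ τ + 1 + Algebra.trdeg ℚ (IntermediateField.adjoin ℚ (Set.range u)) ∧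
        ∀ g : Fin r → ℕ, Function.Injective g → (∀ i, 1 ≤ g i ∧ g i ≤ H ∧ g i ∉ S ∧ Dm (ξ + g i)) →
        ∀ K : IntermediateField ℚ ℂ, FiniteDimensional ℚ K → finrank ℚ K ≤ d →
        ∀ y : Fin r × σ → ℂ, (∀ p, ∃ b : K, b ≠ 0 ∧ y p - b * x (ξ + g p.1) p.2 ∈
            Submodule.span K (insert 1 (Set.range (Sum.elim w u)))) →
        ∀ P : MvPolynomial ((Fin τ ⊕ υ) ⊕ Fin r × σ) K,
          P.totalDegree ≤ δ → MvPolynomial.aeval (Sum.elim (Sum.elim w u) y) P = 0 →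
          MvPolynomial.aeval (Sum.elim (fun j => MvPolynomial.C (Sum.elim w u j)) MvPolynomial.X) P =
            (0 : MvPolynomial (Fin r × σ) ℂ) := by
  obtain ⟨E, hE⟩ := windowU val hval x Dm u m e E₁ hlink r d δ τ (2 * A + 2)
  refine ⟨E + 1, ?_⟩
  intro H ξ hξ hHt w
  obtain ⟨p, hp0, hpd, hpY, hp⟩ := hHt
  have hH : (1 : ℝ) ≤ (H : ℝ) + 2 := by linarith [(Nat.cast_nonneg H : (0 : ℝ) ≤ H)]
  have hξ2 : (2 : ℝ) ≤ ‖ξ‖ := by
    refine le_trans ?_ hξ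
    calc (2 : ℝ) ≤ (H : ℝ) + 2 := by linarith [(Nat.cast_nonneg H : (0 : ℝ) ≤ H)]
      _ ≤ _ := le_self_pow₀ hH (by omega)
  obtain ⟨K₁, ξ', h1, h2, h3, h4⟩ := pt_root hp0 hpd hpY hp
  obtain ⟨S, hS, h⟩ := hE H K₁ ξ' (‖ξ‖ ^ A * (‖ξ‖ ^ A + 2)) h1 h2 h4 (by
    rw [h3]
    exact (pow_le_pow_right₀ hH (by omega)).trans hξ) (by
    rw [h3]
    have h5 : (1 : ℝ) ≤ ‖ξ‖ ^ A := one_le_pow₀ (by linarith)
    calc ‖ξ‖ ^ A * (‖ξ‖ ^ A + 2) ≤ ‖ξ‖ ^ A * (‖ξ‖ ^ A * ‖ξ‖ ^ 2) := by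
          refine mul_le_mul_of_nonneg_left ?_ (by positivity)
          have h6 : (4 : ℝ) ≤ ‖ξ‖ ^ 2 := by nlinarith
          have h7 : ‖ξ‖ ^ A * 4 ≤ ‖ξ‖ ^ A * ‖ξ‖ ^ 2 := mul_le_mul_of_nonneg_left h6 (by positivity)
          linarith
      _ = ‖ξ‖ ^ (2 * A + 2) := by ring) w
  refine ⟨S, hS, ?_⟩
  rw [h3] at h
  exact h

end Pool.Agent.Y916.Sl
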