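import Pool.Agent.Y916.Al.GK
import Pool.Agent.Y916.SStm
import Pool.Agent.Y916.EPr

/-!
# Elliptic and hyperelliptic integrals at algebraic points: statements of the parts

`evc z f` is the value of the power series `f ∈ ℚ⟦X⟧` at the complex number `z`. The power series are those of
`Y916/HStm.lean` and `Y916/SStm.lean`.
-/

set_option autoImplicit false

open PowerSeries

namespace Pool.Agent.Y916.Sl

open Pool.Agent.Y113 Pool.Agent.Y916.Hy Pool.Agent.Y916.Sa Pool.Agent.Y916.Al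
open scoped PeriodPair

/-- (VALC-S) the values at `x ∈ K` have no polynomial relation of degree at most `Δ` over `ℚ` -/
def S_valcS : Prop := ∀ (s : ℕ) (P : Fin s → Polynomial ℤ) (m : Fin s → ℕ),
  (∀ a, GoodO (P a) ∧ m a < (P a).natDegree) → LI P m → ∀ N Δ d A : ℕ, ∃ E : ℕ, ∀ (H : ℕ) (K : IntermediateField ℚ ℂ)
  (x : K) (X : ℝ), FiniteDimensional ℚ K → Module.finrank ℚ K ≤ d → x ≠ 0 → Pt K x X →
  ‖(x : ℂ)‖ * ((H : ℝ) + 2) ^ E ≤ 1 → X * ‖(x : ℂ)‖ ^ A ≤ 1 →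
  ∀ g : Fin N → ℕ, Function.Injective g → (∀ l, 1 ≤ g l ∧ g l ≤ H) →
  ∀ Q : MvPolynomial (Fin N × Tau m) ℚ, Q.totalDegree ≤ Δ →
    MvPolynomial.aeval (fun i => evc (x : ℂ) (Yg P m (g i.1) i.2)) Q = 0 → Q = 0

/-- (WPC) elliptic logarithms at complex points: with `p = s U₀(s²) / 2`, `℘(p) = 1 / s² + g` and
`ζ(p) = -U₁(s²) / (2 s)` -/
def S_wpc : Prop := ∀ (L : PeriodPair) (a b : ℚ), L.g₂ = a → L.g₃ = b → Good (Fe a b) →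
  ∀ i₀ i₁ : Fin ((Fe a b).natDegree - 1), (i₀ : ℕ) = 0 → (i₁ : ℕ) = 1 →
  ∃ E : ℕ, ∀ (g : ℕ) (s : ℂ), s ≠ 0 → ‖s‖ ^ 2 * ((g : ℝ) + 2) ^ E ≤ 1 →
    s * evc (s ^ 2) (Yf (Fe a b) g (Sum.inl i₀)) / 2 ∉ L.lattice ∧
    ℘[L] (s * evc (s ^ 2) (Yf (Fe a b) g (Sum.inl i₀)) / 2) = 1 / s ^ 2 + g ∧
    zeta L (s * evc (s ^ 2) (Yf (Fe a b) g (Sum.inl i₀)) / 2) = -evc (s ^ 2) (Yf (Fe a b) g (Sum.inl i₁)) / (2 * s)

/-- the power series of the integral `∫ x^j dx / √P(x)` with shift `g` -/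
noncomputable def US (P : Polynomial ℤ) (g j : ℕ) : ℚ⟦X⟧ :=
  EU ((P.natDegree : ℤ) - 2 - 2 * j) ((1 + C (g : ℚ) * X) ^ j * Rt (phi P g))

/-- (SQI) the shift, squared: `z^e U_g(z)²` is `w^e U_0(w)²` at `w = z / (1 + g z)` -/
def S_sqi : Prop := ∀ P : Polynomial ℤ, GoodO P → ∃ E : ℕ, ∀ (g : ℕ) (z : ℂ), ‖z‖ * ((g : ℝ) + 2) ^ E ≤ 1 →
  ∀ j : ℕ, j < P.natDegree - 1 → evc z (US P g j) ^ 2 =
    (1 + g * z) ^ (2 * (j : ℤ) + 2 - P.natDegree) * evc (z / (1 + g * z)) (US P 0 j) ^ 2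

/-- (PRIM) the primitives of `x^j / √P(x)` near infinity, squared; `S` is a square root of `P` and `u` a direction -/
def S_prim : Prop := ∀ P : Polynomial ℤ, GoodO P → ∀ u : ℂ, u ≠ 0 → ∀ (R : ℝ) (S Φ : ℂ → ℂ) (j : ℕ),
  j < P.natDegree - 1 →
  (∀ x : ℂ, R < ‖x‖ → x / u ∈ Complex.slitPlane → ContinuousAt S x ∧ S x ^ 2 = Polynomial.aeval x P ∧
    HasDerivAt Φ (x ^ j / S x) x) →
  ∃ (R' : ℝ) (κ : ℂ), ∀ x : ℂ, R' < ‖x‖ → x / u ∈ Complex.slitPlane →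
    (P.leadingCoeff : ℂ) * (Φ x - κ) ^ 2 = x ^ (2 * (j : ℤ) + 2 - P.natDegree) * evc (1 / x) (US P 0 j) ^ 2

end Pool.Agent.Y916.Sl
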