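import Pool.Agent.Y916.Al.Lat
import Pool.Agent.Y916.AT
import Pool.Agent.Y916.ST

/-!
# Points over number fields: windows and counting for arbitrary families
-/

set_option autoImplicit false

open Module

namespace Pool.Agent.Y916.Sl

open Pool.Agent.Y113 Pool.Agent.Y916.AW Pool.Agent.Y916.Al

/-- the input: numbers `val ξ g s` without relations of bounded degree at the points `ξ` of number fields -/
def InpA {σ : Type} (val : ℂ → ℕ → σ → ℂ) : Prop :=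
  ∀ N Δ d A : ℕ, ∃ E : ℕ, ∀ (H : ℕ) (K : IntermediateField ℚ ℂ) (ξ : K) (X : ℝ), FiniteDimensional ℚ K →
    finrank ℚ K ≤ d → Al.Pt K ξ X → ((H : ℝ) + 2) ^ E ≤ ‖(ξ : ℂ)‖ → X ≤ ‖(ξ : ℂ)‖ ^ A →
    ∀ g : Fin N → ℕ, Function.Injective g → (∀ l, 1 ≤ g l ∧ g l ≤ H) →
    ∀ Q : MvPolynomial (Fin N × σ) ℚ, Q.totalDegree ≤ Δ → MvPolynomial.aeval (fun i => val ξ (g i.1) i.2) Q = 0 → Q = 0

/-- points of number fields of degree at most `d`, of height at most `|ξ|^A` -/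
structure PtI (d A : ℕ) where
  K : IntermediateField ℚ ℂ
  ξ : K
  X : ℝ
  fd : FiniteDimensional ℚ K
  rk : finrank ℚ K ≤ d
  pt : Al.Pt K ξ X
  hX : X ≤ ‖(ξ : ℂ)‖ ^ A

/-- the size -/
noncomputable def PtI.size {d A : ℕ} (i : PtI d A) : ℕ := ⌊‖(i.ξ : ℂ)‖⌋₊

theorem inpI {σ : Type} {val : ℂ → ℕ → σ → ℂ} (hval : InpA val) (d A : ℕ) :
    ∃ Ev : ℕ → ℕ → ℕ, Om.Inp Ev (I := PtI d A) (σ := σ) (Ω := ℂ) PtI.size (fun i g s => val i.ξ g s) := by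
  choose Ev hEv using fun N Δ => hval N Δ d A
  refine ⟨Ev, fun N Δ H i hi g hg hgb P hP hP0 => ?_⟩
  refine hEv N Δ H i.K i.ξ i.X i.fd i.rk i.pt ?_ i.hX g hg hgb P hP hP0
  have h1 : (((H + 2) ^ Ev N Δ : ℕ) : ℝ) ≤ (i.size : ℝ) := by exact_mod_cast hi
  push_cast at h1
  exact h1.trans (Nat.floor_le (norm_nonneg _))

/-- the link between the numbers `x` and the values `val`; `Dm` is the domain of `x` -/
def LinkA {σ : Type} (val : ℂ → ℕ → σ → ℂ) (x : ℂ → σ → ℂ) (Dm : ℂ → Prop) (m e τ E : ℕ) : Prop :=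
  ∀ (K₁ : IntermediateField ℚ ℂ) (ξ : K₁), FiniteDimensional ℚ K₁ → finrank ℚ K₁ ≤ m → ∃ K : IntermediateField ℚ ℂ,
    FiniteDimensional ℚ K ∧ finrank ℚ K ≤ e ∧ ∃ w : Fin τ → ℂ,
    ∀ g : ℕ, 1 ≤ g → ((g : ℝ) + 2) ^ E ≤ ‖(ξ : ℂ)‖ → Dm ((ξ : ℂ) + g) → ∀ s, ∃ a : K, a ≠ 0 ∧
      x ((ξ : ℂ) + g) s - a * val ξ g s ∈ Submodule.span K (insert 1 (Set.range w))

/-- the link with fixed constants `u` and one constant for each point -/
def LinkU {σ : Type} (val : ℂ → ℕ → σ → ℂ) (x : ℂ → σ → ℂ) (Dm : ℂ → Prop) {υ : Type} (u : υ → ℂ) (m e E : ℕ) : Prop :=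
  ∀ (K₁ : IntermediateField ℚ ℂ) (ξ : K₁), FiniteDimensional ℚ K₁ → finrank ℚ K₁ ≤ m → ∃ K : IntermediateField ℚ ℂ,
    FiniteDimensional ℚ K ∧ finrank ℚ K ≤ e ∧ ∃ w : ℂ,
    ∀ g : ℕ, 1 ≤ g → ((g : ℝ) + 2) ^ E ≤ ‖(ξ : ℂ)‖ → Dm ((ξ : ℂ) + g) → ∀ s, ∃ a : K, a ≠ 0 ∧
      x ((ξ : ℂ) + g) s - a * val ξ g s ∈ Submodule.span K (insert 1 (insert w (Set.range u)))

theorem LinkU.toA {σ : Type} {val : ℂ → ℕ → σ → ℂ} {x : ℂ → σ → ℂ} {Dm : ℂ → Prop} {υ : Type} [Fintype υ] {u : υ → ℂ}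
    {m e E : ℕ} (h : LinkU val x Dm u m e E) : LinkA val x Dm m e (1 + Fintype.card υ) E := by
  intro K₁ ξ h1 h2
  obtain ⟨K, hK, hKe, w, hw⟩ := h K₁ ξ h1 h2
  refine ⟨K, hK, hKe, Fin.append (fun _ : Fin 1 => w) (fun i => u ((Fintype.equivFin υ).symm i)), fun g hg hgξ hD s => ?_⟩
  obtain ⟨a, ha, hax⟩ := hw g hg hgξ hD s
  refine ⟨a, ha, Submodule.span_mono (Set.insert_subset_insert ?_) hax⟩
  rintro z (rfl | ⟨j, rfl⟩)
  · exact ⟨Fin.castAdd _ 0, by rw [Fin.append_left]⟩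
  · exact ⟨Fin.natAdd _ (Fintype.equivFin υ j), by rw [Fin.append_right, Equiv.symm_apply_apply]⟩

/-- windows, positive shifts -/
theorem hwinB {σ : Type} [Fintype σ] [DecidableEq σ] (val : ℂ → ℕ → σ → ℂ) (hval : InpA val) (x : ℂ → σ → ℂ)
    (Dm : ℂ → Prop) (m e τ E₁ : ℕ) (hlink : LinkA val x Dm m e τ E₁) {r : ℕ} (θ : Fin r → ℕ) (hθ : Function.Injective θ)
    (A δ D : ℕ) :
    ∃ M E : ℕ, ∀ (V : Submodule ℚ ℂ), Module.Finite ℚ V → finrank ℚ V ≤ D → ∀ (H : ℕ) (K₁ : IntermediateField ℚ ℂ)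
      (ξ : K₁) (X : ℝ), FiniteDimensional ℚ K₁ → finrank ℚ K₁ ≤ m → Al.Pt K₁ ξ X → ((H : ℝ) + 2) ^ E ≤ ‖(ξ : ℂ)‖ →
      X ≤ ‖(ξ : ℂ)‖ ^ A → ∀ S : Finset ℕ, (∀ g ∈ S, 1 ≤ g ∧ g ≤ H ∧ (∀ j, Dm ((ξ : ℂ) + g + θ j)) ∧
        Rel δ V (fun p : Fin r × σ => x ((ξ : ℂ) + g + θ p.1) p.2)) → S.card ≤ M := by
  classical
  obtain ⟨Ev, hEv⟩ := inpI hval m A
  obtain ⟨E₀, hE₀⟩ := Om.aw Ev (σ := σ) r e (δ + 1) (D + τ)
  set mθ : ℕ := ∑ j, θ j with hmθ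
  have hmj : ∀ j, θ j ≤ mθ := fun j => Finset.single_le_sum (f := θ) (fun _ _ => Nat.zero_le _) (Finset.mem_univ j)
  refine ⟨r * (D + τ), (mθ + 2) * (E₀ + E₁) + 2, ?_⟩
  intro V hV hVD H K₁ ξ X hK₁f hK₁d hPt hξ hXξ S hS
  obtain ⟨w, c, hwc⟩ := coords V hV D hVD
  set H' : ℕ := H + mθ with hH'
  have hH2 : H' + 2 ≤ (H + 2) ^ (mθ + 2) := by
    have h1 : mθ + 2 ≤ 2 ^ (mθ + 1) := by
      have := (Nat.lt_two_pow_self : mθ + 1 < 2 ^ (mθ + 1))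
      omega
    have h2 : (mθ + 2) * (H + 2) ≤ (H + 2) ^ (mθ + 1) * (H + 2) :=
      Nat.mul_le_mul_right _ (h1.trans (Nat.pow_le_pow_left (by omega) _))
    have h3 : (H + 2) ^ (mθ + 2) = (H + 2) ^ (mθ + 1) * (H + 2) := by rw [← pow_succ]
    rw [h3]
    nlinarith
  have hpow : (H' + 2) ^ (E₀ + E₁) ≤ (H + 2) ^ ((mθ + 2) * (E₀ + E₁) + 2) := by
    refine (Nat.pow_le_pow_left hH2 _).trans ?_
    rw [← pow_mul]
    exact Nat.pow_le_pow_right (by omega) (by omega)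
  have hpR : (((H' + 2) ^ (E₀ + E₁) : ℕ) : ℝ) ≤ ‖(ξ : ℂ)‖ := by
    refine le_trans ?_ hξ
    exact_mod_cast hpow
  have hp1 : ∀ a, a ≤ E₀ + E₁ → (((H' + 2) ^ a : ℕ) : ℝ) ≤ ‖(ξ : ℂ)‖ := by
    intro a ha
    refine le_trans ?_ hpR
    exact_mod_cast Nat.pow_le_pow_right (by omega) ha
  set i : PtI m A := ⟨K₁, ξ, X, hK₁f, hK₁d, hPt, hXξ⟩ with hi
  have hsize : (H' + 2) ^ E₀ ≤ i.size := Nat.le_floor (hp1 E₀ (by omega))
  obtain ⟨K, hKf, hKd, w₀, hlk⟩ := hlink K₁ ξ hK₁f hK₁d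
  obtain ⟨Xs, hXs, hwin⟩ := hE₀ ℂ (PtI m A) PtI.size _ hEv H' i hsize K hKf hKd (Fin.append w w₀)
  have hbad : ∀ g ∈ S, ∃ j : Fin r, g + θ j ∈ Xs := by
    intro g hg
    obtain ⟨hg1, hgH, hgD, P, hP0, hPd, hPc, hPv⟩ := hS g hg
    by_contra hcon
    push Not at hcon
    have hc : ∀ e, P.coeff e = ∑ j, ((c (P.coeff e) j : ℚ) : ℂ) * w j := fun e => hwc _ (hPc e)
    have hinj : Function.Injective fun j => g + θ j := by
      intro i j hij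
      have h1 : g + θ i = g + θ j := hij
      exact hθ (by omega)
    have hg1 : ∀ j, 1 ≤ g + θ j ∧ g + θ j ≤ H' ∧ g + θ j ∉ Xs := by
      intro j
      have := hmj j
      exact ⟨by omega, by omega, hcon j⟩
    have hx : ∀ p : Fin r × σ, ∃ a : K, a ≠ 0 ∧ x ((ξ : ℂ) + g + θ p.1) p.2 - a * val ξ (g + θ p.1) p.2 ∈
        Submodule.span K (insert 1 (Set.range (Fin.append w w₀))) := by
      rintro ⟨j, s⟩
      have h1 : (((g + θ j : ℕ) : ℝ) + 2) ^ E₁ ≤ ‖(ξ : ℂ)‖ := by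
        refine le_trans ?_ (hp1 E₁ (by omega))
        have h2 : (g + θ j + 2) ^ E₁ ≤ (H' + 2) ^ E₁ := Nat.pow_le_pow_left (by have := (hg1 j).2.1; omega) _
        exact_mod_cast h2
      have h2 : (ξ : ℂ) + ((g + θ j : ℕ) : ℂ) = (ξ : ℂ) + g + θ j := by
        push_cast
        ring
      obtain ⟨a, ha, hax⟩ := hlk (g + θ j) (hg1 j).1 h1 (by rw [h2]; exact hgD j) s
      refine ⟨a, ha, ?_⟩
      rw [h2] at hax
      refine Submodule.span_mono (Set.insert_subset_insert ?_) hax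
      rintro _ ⟨i, rfl⟩
      exact ⟨Fin.natAdd D i, by rw [Fin.append_right]⟩
    have h9 := hwin (fun j => g + θ j) hinj hg1 (fun p : Fin r × σ => x ((ξ : ℂ) + g + θ p.1) p.2) hx
      (AW.Pt K c P) (AW.Pt_deg K c P hPd) (by
        have h10 := AW.Pt_val K w w₀ c P hc (A := ℂ) (fun q => rfl) (fun p : Fin r × σ => x ((ξ : ℂ) + g + θ p.1) p.2)
        exact h10.trans hPv)
    have h11 := AW.Pt_val K w w₀ c P hc (A := MvPolynomial (Fin r × σ) ℂ) (fun q => rfl) MvPolynomial.X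
    rw [MvPolynomial.aeval_X_left_apply] at h11
    exact hP0 (h11.symm.trans h9)
  rcases S.eq_empty_or_nonempty with rfl | ⟨g0, hg0⟩
  · simp
  obtain ⟨j0, -⟩ := hbad g0 hg0
  have : Nonempty (Fin r) := ⟨j0⟩
  choose! j hj using hbad
  have h1 : S.card ≤ ((Finset.univ : Finset (Fin r)) ×ˢ Xs).card := by
    refine Finset.card_le_card_of_injOn (fun g => (j g, g + θ (j g))) ?_ ?_
    · intro g hg
      rw [Finset.mem_coe, Finset.mem_product]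
      exact ⟨Finset.mem_univ _, hj g hg⟩
    · intro g hg g' hg' hgg
      simp only [Prod.mk.injEq] at hgg
      have h2 := hgg.2
      rw [hgg.1] at h2
      omega
  rw [Finset.card_product, Finset.card_univ, Fintype.card_fin] at h1
  exact h1.trans (Nat.mul_le_mul_left _ hXs)

/-- translation of a point by an integer -/
theorem pt_sub {K : IntermediateField ℚ ℂ} {ξ : K} {X : ℝ} (h : Al.Pt K ξ X) (c : ℕ) :
    Al.Pt K (ξ - (c : K)) ((1 + c) * X) := by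
  obtain ⟨u, w, hu, hw, hw0, hx, hσ⟩ := h
  have hc : IsIntegral ℤ (c : K) := by
    have h1 : ((c : ℤ) : K) = (c : K) := by norm_cast
    rw [← h1, ← eq_intCast (algebraMap ℤ K)]
    exact isIntegral_algebraMap
  have hX0 : 0 ≤ X := (norm_nonneg _).trans (hσ (algebraMap K ℂ)).1
  refine ⟨u - c * w, w, hu.sub (hc.mul hw), hw, hw0, ?_, fun σ => ⟨?_, ?_⟩⟩
  · rw [hx]
    field_simp
  · rw [map_sub, map_mul, map_natCast]
    refine (norm_sub_le _ _).trans ?_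
    rw [norm_mul, Complex.norm_natCast]
    have h1 := (hσ σ).1
    have h2 : (c : ℝ) * ‖σ w‖ ≤ c * X := mul_le_mul_of_nonneg_left (hσ σ).2 (Nat.cast_nonneg c)
    linarith
  · refine (hσ σ).2.trans ?_
    have : 0 ≤ (c : ℝ) * X := by positivity
    linarith

/-- windows in both directions -/
theorem hwinS {σ : Type} [Fintype σ] [DecidableEq σ] (val : ℂ → ℕ → σ → ℂ) (hval : InpA val) (x : ℂ → σ → ℂ)
    (Dm : ℂ → Prop) (m e τ E₁ : ℕ) (hlink : LinkA val x Dm m e τ E₁) {r : ℕ} (θ : Fin r → ℕ) (hθ : Function.Injective θ)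
    (A δ D : ℕ) :
    ∃ M E : ℕ, ∀ (V : Submodule ℚ ℂ), Module.Finite ℚ V → finrank ℚ V ≤ D → ∀ (H : ℕ) (K₁ : IntermediateField ℚ ℂ)
      (ξ : K₁) (X : ℝ), FiniteDimensional ℚ K₁ → finrank ℚ K₁ ≤ m → Al.Pt K₁ ξ X → ((H : ℝ) + 2) ^ E ≤ ‖(ξ : ℂ)‖ →
      X ≤ ‖(ξ : ℂ)‖ ^ A → ∀ ε : ℤ, (ε = 1 ∨ ε = -1) → ∀ S : Finset ℕ, (∀ g ∈ S, g ≤ H ∧
        (∀ j, Dm ((ξ : ℂ) - ε * g + θ j)) ∧ Rel δ V (fun p : Fin r × σ => x ((ξ : ℂ) - ε * g + θ p.1) p.2)) →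
      S.card ≤ M := by
  classical
  obtain ⟨M, E, hE⟩ := hwinB val hval x Dm m e τ E₁ hlink θ hθ (2 * (A + 1)) δ D
  refine ⟨M, 2 * E + 3, fun V hV hVD H K₁ ξ X hK₁f hK₁d hPt hξ hXξ ε hε S hS => ?_⟩
  set c : ℕ := if ε = 1 then H + 1 else 1 with hc
  set f : ℕ → ℕ := fun g => if ε = 1 then H + 1 - g else g + 1 with hf
  have hcH : c ≤ H + 1 := by
    rw [hc]
    split_ifs <;> omega
  have hH0 : (0 : ℝ) ≤ H := Nat.cast_nonneg H
  have hH1 : (1 : ℝ) ≤ (H : ℝ) + 2 := by linarith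
  have hcR : (c : ℝ) ≤ (H : ℝ) + 1 := by exact_mod_cast hcH
  have hξ3 : ((H : ℝ) + 2) ^ 3 ≤ ‖(ξ : ℂ)‖ := (pow_le_pow_right₀ hH1 (by omega)).trans hξ
  have hξ8 : 8 ≤ ‖(ξ : ℂ)‖ := by
    refine le_trans ?_ hξ3
    calc (8 : ℝ) = 2 ^ 3 := by norm_num
      _ ≤ _ := pow_le_pow_left₀ (by norm_num) (by linarith) 3
  have h4H : 4 * ((H : ℝ) + 2) ≤ ‖(ξ : ℂ)‖ := by
    refine le_trans ?_ hξ3
    have h1 : (4 : ℝ) ≤ ((H : ℝ) + 2) ^ 2 := by nlinarith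
    calc 4 * ((H : ℝ) + 2) ≤ ((H : ℝ) + 2) ^ 2 * ((H : ℝ) + 2) := mul_le_mul_of_nonneg_right h1 (by linarith)
      _ = _ := by ring
  have hcast : ((ξ - (c : K₁) : K₁) : ℂ) = (ξ : ℂ) - c := by push_cast; ring
  have hlow : ‖(ξ : ℂ)‖ / 2 ≤ ‖((ξ - (c : K₁) : K₁) : ℂ)‖ := by
    rw [hcast]
    have h1 := norm_sub_norm_le (ξ : ℂ) (c : ℂ)
    rw [Complex.norm_natCast] at h1
    linarith
  have hbig : (((H + 1 : ℕ) : ℝ) + 2) ^ E ≤ ‖((ξ - (c : K₁) : K₁) : ℂ)‖ := by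
    refine le_trans ?_ hlow
    rw [le_div_iff₀ (by norm_num)]
    refine le_trans ?_ hξ
    have h1 : ((H + 1 : ℕ) : ℝ) + 2 ≤ ((H : ℝ) + 2) ^ 2 := by
      push_cast
      nlinarith
    calc (((H + 1 : ℕ) : ℝ) + 2) ^ E * 2 ≤ (((H : ℝ) + 2) ^ 2) ^ E * ((H : ℝ) + 2) ^ 3 := by
          refine mul_le_mul (pow_le_pow_left₀ (by positivity) h1 _) ?_ (by norm_num) (by positivity)
          calc (2 : ℝ) ≤ (H : ℝ) + 2 := by linarith
            _ ≤ _ := le_self_pow₀ hH1 (by norm_num)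
      _ = _ := by rw [← pow_mul, ← pow_add]
  have hX0 : 0 ≤ X := by
    obtain ⟨u, w, -, -, -, -, hσ⟩ := hPt
    exact (norm_nonneg _).trans (hσ (algebraMap K₁ ℂ)).1
  have hX' : (1 + (c : ℝ)) * X ≤ ‖((ξ - (c : K₁) : K₁) : ℂ)‖ ^ (2 * (A + 1)) := by
    have h1 : (1 + (c : ℝ)) * X ≤ ‖(ξ : ℂ)‖ * ‖(ξ : ℂ)‖ ^ A := by
      refine mul_le_mul ?_ hXξ hX0 (by linarith)
      linarith
    refine h1.trans ?_
    rw [pow_mul, ← pow_succ']
    refine pow_le_pow_left₀ (by linarith) ?_ _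
    have h2 : 0 ≤ ‖(ξ : ℂ)‖ / 2 := by linarith
    calc ‖(ξ : ℂ)‖ ≤ (‖(ξ : ℂ)‖ / 2) ^ 2 := by nlinarith
      _ ≤ _ := pow_le_pow_left₀ h2 hlow 2
  have hfc : ∀ g, g ≤ H → (f g : ℂ) - c = -(ε : ℂ) * g := by
    intro g hg
    rcases hε with rfl | rfl
    · have h1 : f g = H + 1 - g := if_pos rfl
      have h2 : c = H + 1 := if_pos rfl
      rw [h1, h2, Nat.cast_sub (by omega)]
      push_cast
      ring
    · have h1 : f g = g + 1 := if_neg (by norm_num)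
      have h2 : c = 1 := if_neg (by norm_num)
      rw [h1, h2]
      push_cast
      ring
  have hfb : ∀ g, g ≤ H → 1 ≤ f g ∧ f g ≤ H + 1 := by
    intro g hg
    rw [hf]
    simp only
    split_ifs <;> omega
  have hfinj : Set.InjOn f (S : Set ℕ) := by
    intro g hg g' hg' h
    have h1 := (hS g hg).1
    have h2 := (hS g' hg').1
    have h3 : f g = f g' := h
    rw [hf] at h3
    simp only at h3
    split_ifs at h3 <;> omega
  rw [← Finset.card_image_of_injOn hfinj]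
  refine hE V hV hVD (H + 1) K₁ (ξ - (c : K₁)) ((1 + c) * X) hK₁f hK₁d (pt_sub hPt c) hbig hX' (S.image f) ?_
  intro g' hg'
  obtain ⟨g, hg, rfl⟩ := Finset.mem_image.1 hg'
  obtain ⟨hgH, hgD, hgR⟩ := hS g hg
  have h1 : ((ξ - (c : K₁) : K₁) : ℂ) + (f g : ℂ) = (ξ : ℂ) - ε * g := by
    rw [hcast]
    linear_combination hfc g hgH
  refine ⟨(hfb g hgH).1, (hfb g hgH).2, fun j => ?_, ?_⟩
  · rw [h1]
    exact hgD j
  · rw [h1]
    exact hgR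

open Classical in
/-- few bad points of a lattice -/
theorem lattice_badA {σ : Type} [Fintype σ] [DecidableEq σ] (val : ℂ → ℕ → σ → ℂ) (hval : InpA val) (x : ℂ → σ → ℂ)
    (Dm : ℂ → Prop) (hlink : ∀ m, ∃ e τ E, LinkA val x Dm m e τ E)
    {m r : ℕ} (η : Fin (m + 1) → ℂ) (hη : ∀ j, IsAlgebraic ℚ (η j)) (hη0 : η 0 = 1) (θ : Fin r → ℕ)
    (hinj : Function.Injective θ) (δ D : ℕ) :
    ∃ c : ℝ, 0 < c ∧ ∃ C : ℝ, 0 ≤ C ∧ ∀ V : Submodule ℚ ℂ, Module.Finite ℚ V → finrank ℚ V ≤ D → ∀ T : ℕ, 1 ≤ T →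
      (((Fintype.piFinset fun _ : Fin (m + 1) => Finset.Icc (-(T : ℤ)) T).filter fun n =>
        (∀ j, Dm ((∑ j, (n j : ℂ) * η j) + θ j)) ∧
        Rel δ V (fun p : Fin r × σ => x ((∑ j, (n j : ℂ) * η j) + θ p.1) p.2)).card : ℝ) ≤
        C * (T : ℝ) ^ (((m + 1 : ℕ) : ℝ) - c) := by
  set K₁ : IntermediateField ℚ ℂ := IntermediateField.adjoin ℚ (Set.range η) with hK₁
  have hfd : FiniteDimensional ℚ K₁ := IntermediateField.finiteDimensional_adjoin (by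
    rintro _ ⟨j, rfl⟩
    exact (hη j).isIntegral)
  set ηK : Fin (m + 1) → K₁ := fun j => ⟨η j, IntermediateField.subset_adjoin ℚ _ ⟨j, rfl⟩⟩ with hηK
  obtain ⟨C₁, hC₁, hpt⟩ := pt_comb K₁ ηK
  obtain ⟨e, τ, E₀, hlink⟩ := hlink (finrank ℚ K₁)
  obtain ⟨M, E₁, hwin⟩ := hwinS val hval x Dm _ e τ E₀ hlink θ hinj 5 δ D
  obtain ⟨N₁, hN₁⟩ := pow_unbounded_of_one_lt (10 * C₁) (show (1 : ℝ) < 2 by norm_num)
  obtain ⟨c, hc, hc1, C, hC, hline⟩ := line_count M (E₁ + N₁)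
  obtain ⟨C₂, hC₂⟩ := exists_nat_ge (∑ j, ‖η j‖)
  have hC₂1 : 1 ≤ C₂ + 1 := by omega
  refine ⟨c, hc, 3 ^ m * (C * (C₂ + 1)), by positivity, fun V hV hVD T hT => ?_⟩
  have hT1 : (1 : ℝ) ≤ T := by exact_mod_cast hT
  have hT0 : (0 : ℝ) < T := by linarith
  set T' : ℕ := (C₂ + 1) * T with hT'
  have hTT' : T ≤ T' := Nat.le_mul_of_pos_left T (by omega)
  have hT'1 : 1 ≤ T' := hT.trans hTT'
  have hT'R : (1 : ℝ) ≤ T' := by exact_mod_cast hT'1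
  set Z : (Fin m → ℤ) → ℂ := fun n => ∑ j, (n j : ℂ) * η j.succ with hZ
  obtain ⟨Bd, hBd⟩ : ∃ Bd : ℂ → Prop, ∀ z, Bd z ↔
      ((∀ j, Dm (z + θ j)) ∧ Rel δ V (fun p : Fin r × σ => x (z + θ p.1) p.2)) := ⟨_, fun _ => Iff.rfl⟩
  -- one line
  have hl : ∀ n : Fin m → ℤ, (∀ j, |n j| ≤ T) →
      ((((Finset.Icc (-(T : ℤ)) T).filter fun a : ℤ => Bd ((a : ℂ) + Z n))).card : ℝ) ≤
        C * (C₂ + 1) * (T : ℝ) ^ (1 - c) := by
    intro n hn
    have hZn : ‖Z n‖ ≤ T' := by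
      rw [hZ]
      simp only
      refine (norm_sum_le _ _).trans ?_
      have h1 : ∀ j ∈ (Finset.univ : Finset (Fin m)), ‖(n j : ℂ) * η j.succ‖ ≤ T * ‖η j.succ‖ := by
        intro j _
        rw [norm_mul, Complex.norm_intCast]
        refine mul_le_mul_of_nonneg_right ?_ (norm_nonneg _)
        have h2 : ((|n j| : ℤ) : ℝ) ≤ T := by exact_mod_cast hn j
        push_cast at h2
        exact h2
      refine (Finset.sum_le_sum h1).trans ?_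
      rw [← Finset.mul_sum]
      have h3 : ∑ j : Fin m, ‖η j.succ‖ ≤ C₂ + 1 := by
        rw [Fin.sum_univ_succ] at hC₂
        linarith [norm_nonneg (η 0)]
      rw [hT']
      push_cast
      rw [mul_comm]
      exact mul_le_mul_of_nonneg_right h3 hT0.le
    have h4 := hline T' hT'1 (Z n) hZn (fun a : ℤ => Bd ((a : ℂ) + Z n)) (by
      intro ε hε H t ht hTt hHt S hS
      have hnorm1 : (2 : ℝ) ^ N₁ ≤ ‖Z n + t‖ := by
        refine le_trans ?_ hHt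
        have hH : (2 : ℝ) ≤ (H : ℝ) + 2 := by linarith [(Nat.cast_nonneg H : (0 : ℝ) ≤ H)]
        calc (2 : ℝ) ^ N₁ ≤ ((H : ℝ) + 2) ^ N₁ := pow_le_pow_left₀ (by norm_num) hH _
          _ ≤ _ := pow_le_pow_right₀ (by linarith) (by omega)
      set n' : Fin (m + 1) → ℤ := Fin.cases t n with hn'
      have hξ : ((∑ j, (n' j : K₁) * ηK j : K₁) : ℂ) = Z n + t := by
        push_cast
        rw [Fin.sum_univ_succ]
        simp only [hn', Fin.cases_zero, Fin.cases_succ, hηK, hη0, mul_one, hZ]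
        ring
      have hn'b : ∀ j, |(n' j : ℝ)| ≤ 10 * T' := by
        intro j
        refine Fin.cases ?_ (fun j => ?_) j
        · have h5 : ((|t| : ℤ) : ℝ) ≤ 10 * T' := by exact_mod_cast ht
          push_cast at h5
          simpa [hn'] using h5
        · have h5 : ((|n j| : ℤ) : ℝ) ≤ T := by exact_mod_cast hn j
          have h6 : (T : ℝ) ≤ T' := by exact_mod_cast hTT'
          push_cast at h5
          simp only [hn', Fin.cases_succ]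
          linarith
      have hPt := hpt (10 * T') (by linarith) n' hn'b
      refine hwin V hV hVD H K₁ (∑ j, (n' j : K₁) * ηK j) (C₁ * (10 * T')) hfd le_rfl hPt ?_ ?_ ε hε S ?_
      · rw [hξ]
        refine le_trans ?_ hHt
        exact pow_le_pow_right₀ (by linarith [(Nat.cast_nonneg H : (0 : ℝ) ≤ H)]) (by omega)
      · rw [hξ]
        calc C₁ * (10 * T') = (10 * C₁) * T' := by ring
          _ ≤ ‖Z n + t‖ * ‖Z n + t‖ ^ 4 :=
              mul_le_mul (hN₁.le.trans hnorm1) hTt (by positivity) (norm_nonneg _)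
          _ = ‖Z n + t‖ ^ 5 := by ring
      · intro g hg
        obtain ⟨hgH, hgR⟩ := hS g hg
        refine ⟨hgH, ?_⟩
        rw [hξ]
        have h5 : (((t - ε * g : ℤ)) : ℂ) + Z n = Z n + t - ε * g := by
          push_cast
          ring
        have h6 : Bd ((((t - ε * g : ℤ)) : ℂ) + Z n) := hgR
        rw [h5] at h6
        exact (hBd _).1 h6)
    have h5 : ((Finset.Icc (-(T : ℤ)) T).filter fun a : ℤ => Bd ((a : ℂ) + Z n)).card ≤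
        ((Finset.Icc (-(T' : ℤ)) T').filter fun a : ℤ => Bd ((a : ℂ) + Z n)).card := by
      refine Finset.card_le_card (Finset.filter_subset_filter _ (Finset.Icc_subset_Icc ?_ ?_))
      · have : (T : ℤ) ≤ T' := by exact_mod_cast hTT'
        omega
      · exact_mod_cast hTT'
    have h6 : (T' : ℝ) ^ (1 - c) ≤ (C₂ + 1) * (T : ℝ) ^ (1 - c) := by
      rw [hT']
      push_cast
      rw [Real.mul_rpow (by positivity) hT0.le]
      refine mul_le_mul_of_nonneg_right ?_ (by positivity)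
      have h7 : (1 : ℝ) ≤ (C₂ : ℝ) + 1 := by linarith [(Nat.cast_nonneg C₂ : (0 : ℝ) ≤ C₂)]
      calc ((C₂ : ℝ) + 1) ^ (1 - c) ≤ ((C₂ : ℝ) + 1) ^ (1 : ℝ) := Real.rpow_le_rpow_of_exponent_le h7 (by linarith)
        _ = (C₂ : ℝ) + 1 := Real.rpow_one _
    calc _ ≤ (((Finset.Icc (-(T' : ℤ)) T').filter fun a : ℤ => Bd ((a : ℂ) + Z n)).card : ℝ) := by
          exact_mod_cast h5
      _ ≤ C * (T' : ℝ) ^ (1 - c) := h4
      _ ≤ C * ((C₂ + 1) * (T : ℝ) ^ (1 - c)) := mul_le_mul_of_nonneg_left h6 hC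
      _ = _ := by ring
  -- all lines
  set bad : (Fin m → ℤ) → Finset ℤ := fun n => (Finset.Icc (-(T : ℤ)) T).filter fun a : ℤ => Bd ((a : ℂ) + Z n) with hbad
  have hsub : ((Fintype.piFinset fun _ : Fin (m + 1) => Finset.Icc (-(T : ℤ)) T).filter fun n =>
      Bd (∑ j, (n j : ℂ) * η j)) ⊆
      ((Fintype.piFinset fun _ : Fin m => Finset.Icc (-(T : ℤ)) T).sigma bad).image
        fun p => (Fin.cons p.2 p.1 : Fin (m + 1) → ℤ) := by
    intro n hn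
    obtain ⟨hn1, hn2⟩ := Finset.mem_filter.1 hn
    rw [Fintype.mem_piFinset] at hn1
    refine Finset.mem_image.2 ⟨⟨fun j => n j.succ, n 0⟩, ?_, ?_⟩
    · refine Finset.mem_sigma.2 ⟨?_, Finset.mem_filter.2 ⟨hn1 0, ?_⟩⟩
      · rw [Fintype.mem_piFinset]
        exact fun j => hn1 j.succ
      · have h1 : ((n 0 : ℤ) : ℂ) + Z (fun j => n j.succ) = ∑ j, (n j : ℂ) * η j := by
          rw [Fin.sum_univ_succ, hη0, mul_one]
        simp only [h1]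
        exact hn2
    · funext j
      refine Fin.cases ?_ (fun j => ?_) j <;> simp
  have hbox : (((Fintype.piFinset fun _ : Fin m => Finset.Icc (-(T : ℤ)) T).card : ℕ) : ℝ) ≤ (3 * T) ^ m := by
    rw [Fintype.card_piFinset]
    simp only [Finset.prod_const, Finset.card_univ, Fintype.card_fin, Int.card_Icc]
    rw [Nat.cast_pow]
    refine pow_le_pow_left₀ (Nat.cast_nonneg _) ?_ _
    have h1 : ((T : ℤ) + 1 - -(T : ℤ)).toNat = 2 * T + 1 := by omega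
    rw [h1]
    push_cast
    linarith
  have h1 : (((Fintype.piFinset fun _ : Fin (m + 1) => Finset.Icc (-(T : ℤ)) T).filter fun n =>
      Bd (∑ j, (n j : ℂ) * η j)).card : ℝ) ≤
      ∑ n ∈ Fintype.piFinset (fun _ : Fin m => Finset.Icc (-(T : ℤ)) T), ((bad n).card : ℝ) := by
    have h2 := (Finset.card_le_card hsub).trans Finset.card_image_le
    rw [Finset.card_sigma] at h2
    exact_mod_cast h2
  have hgoal : ((Fintype.piFinset fun _ : Fin (m + 1) => Finset.Icc (-(T : ℤ)) T).filter fun n =>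
        (∀ j, Dm ((∑ j, (n j : ℂ) * η j) + θ j)) ∧
        Rel δ V (fun p : Fin r × σ => x ((∑ j, (n j : ℂ) * η j) + θ p.1) p.2)) =
      ((Fintype.piFinset fun _ : Fin (m + 1) => Finset.Icc (-(T : ℤ)) T).filter fun n =>
        Bd (∑ j, (n j : ℂ) * η j)) := by
    ext n
    simp only [Finset.mem_filter, hBd]
  rw [hgoal]
  refine h1.trans ?_
  have h2 : ∀ n ∈ Fintype.piFinset (fun _ : Fin m => Finset.Icc (-(T : ℤ)) T), ((bad n).card : ℝ) ≤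
      C * (C₂ + 1) * (T : ℝ) ^ (1 - c) := by
    intro n hn
    rw [Fintype.mem_piFinset] at hn
    exact hl n fun j => abs_le.2 (Finset.mem_Icc.1 (hn j))
  refine (Finset.sum_le_card_nsmul _ _ _ h2).trans ?_
  rw [nsmul_eq_mul]
  calc _ ≤ (3 * (T : ℝ)) ^ m * (C * (C₂ + 1) * (T : ℝ) ^ (1 - c)) := mul_le_mul_of_nonneg_right hbox (by positivity)
    _ = 3 ^ m * (C * (C₂ + 1)) * (T : ℝ) ^ (((m + 1 : ℕ) : ℝ) - c) := by
        have h3 : (((m + 1 : ℕ) : ℝ) - c) = (m : ℝ) + (1 - c) := by push_cast; ring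
        rw [h3, Real.rpow_add hT0, Real.rpow_natCast, mul_pow]
        ring

open Classical in
/-- almost all tuples -/
theorem lattice_tuplesA {σ : Type} [Fintype σ] [DecidableEq σ] (val : ℂ → ℕ → σ → ℂ) (hval : InpA val)
    (x : ℂ → σ → ℂ) (Dm : ℂ → Prop) (hlink : ∀ m, ∃ e τ E, LinkA val x Dm m e τ E)
    {m r : ℕ} (η : Fin (m + 1) → ℂ) (hη : ∀ j, IsAlgebraic ℚ (η j)) (hη0 : η 0 = 1) (θ : Fin r → ℕ)
    (hinj : Function.Injective θ) (k δ D : ℕ) :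
    ∃ c : ℝ, 0 < c ∧ ∃ C : ℝ, 0 ≤ C ∧ ∀ V : Submodule ℚ ℂ, Module.Finite ℚ V → finrank ℚ V ≤ D → ∀ T : ℕ, 1 ≤ T →
      (((Fintype.piFinset fun _ : Fin k => Fintype.piFinset fun _ : Fin (m + 1) => Finset.Icc (-(T : ℤ)) T).filter
        fun n => (∀ i j, Dm ((∑ l, (n i l : ℂ) * η l) + θ j)) ∧
        Rel δ V (fun p : Fin k × (Fin r × σ) => x ((∑ l, (n p.1 l : ℂ) * η l) + θ p.2.1) p.2.2)).card : ℝ) ≤
        C * (T : ℝ) ^ (((k * (m + 1) : ℕ) : ℝ) - c) := by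
  obtain ⟨c, hc, C, hC, hcount⟩ := tuples_count (fun T : ℕ => (Fintype.piFinset fun _ : Fin (m + 1) =>
      Finset.Icc (-(T : ℤ)) T).filter fun n => ∀ j, Dm ((∑ l, (n l : ℂ) * η l) + θ j))
    (fun (n : Fin (m + 1) → ℤ) (p : Fin r × σ) => x ((∑ l, (n l : ℂ) * η l) + θ p.1) p.2) (m + 1) (3 ^ (m + 1))
    (by positivity) (by
      intro T hT
      have hT1 : (1 : ℝ) ≤ T := by exact_mod_cast hT
      refine le_trans (b := ((Fintype.piFinset fun _ : Fin (m + 1) => Finset.Icc (-(T : ℤ)) T).card : ℝ)) ?_ ?_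
      · exact_mod_cast Finset.card_filter_le _ _
      rw [← mul_pow, Fintype.card_piFinset]
      simp only [Finset.prod_const, Finset.card_univ, Fintype.card_fin, Int.card_Icc]
      rw [Nat.cast_pow]
      refine pow_le_pow_left₀ (Nat.cast_nonneg _) ?_ _
      have h1 : ((T : ℤ) + 1 - -(T : ℤ)).toNat = 2 * T + 1 := by omega
      rw [h1]
      push_cast
      linarith) (fun δ D => by
        obtain ⟨c, hc, C, hC, h⟩ := lattice_badA val hval x Dm hlink η hη hη0 θ hinj δ D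
        refine ⟨c, hc, C, hC, fun V hV hVD T hT => le_trans (le_of_eq ?_) (h V hV hVD T hT)⟩
        congr 2
        ext n
        simp only [Finset.mem_filter, and_assoc]) δ k D
  refine ⟨c, hc, C, hC, fun V hV hVD T hT => le_trans ?_ (hcount V hV hVD T hT)⟩
  refine Nat.cast_le.2 (Finset.card_le_card fun n hn => ?_)
  obtain ⟨h1, h2, h3⟩ := Finset.mem_filter.1 hn
  rw [Fintype.mem_piFinset] at h1
  refine Finset.mem_filter.2 ⟨?_, h3⟩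
  rw [Fintype.mem_piFinset]
  exact fun i => Finset.mem_filter.2 ⟨h1 i, h2 i⟩

/-- almost all tuples, affine changes and coefficients in number fields -/
theorem lattice_A {σ : Type} [Fintype σ] [DecidableEq σ] (val : ℂ → ℕ → σ → ℂ) (hval : InpA val)
    (x : ℂ → σ → ℂ) (Dm : ℂ → Prop) (hlink : ∀ m, ∃ e τ E, LinkA val x Dm m e τ E)
    {m r : ℕ} (η : Fin (m + 1) → ℂ) (hη : ∀ j, IsAlgebraic ℚ (η j)) (hη0 : η 0 = 1) (θ : Fin r → ℕ)
    (hinj : Function.Injective θ) (k δ d D : ℕ) :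
    ∃ c : ℝ, 0 < c ∧ ∃ C : ℝ, 0 ≤ C ∧ ∀ V : Submodule ℚ ℂ, Module.Finite ℚ V → finrank ℚ V ≤ D → ∀ T : ℕ, 1 ≤ T →
      {n : Fin k → Fin (m + 1) → ℤ | (∀ i l, |n i l| ≤ T) ∧ (∀ i j, Dm ((∑ l, (n i l : ℂ) * η l) + θ j)) ∧
        Sa.RelA δ d V fun p : (Fin k × Fin r) × σ => x ((∑ l, (n p.1.1 l : ℂ) * η l) + θ p.1.2) p.2}.Finite ∧
      ({n : Fin k → Fin (m + 1) → ℤ | (∀ i l, |n i l| ≤ T) ∧ (∀ i j, Dm ((∑ l, (n i l : ℂ) * η l) + θ j)) ∧
        Sa.RelA δ d V fun p : (Fin k × Fin r) × σ => x ((∑ l, (n p.1.1 l : ℂ) * η l) + θ p.1.2) p.2}.ncard : ℝ) ≤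
        C * (T : ℝ) ^ (((k * (m + 1) : ℕ) : ℝ) - c) := by
  classical
  set m' := d ^ d * (δ + 1) with hm'
  obtain ⟨c, hc, C, hC, hcount⟩ := lattice_tuplesA val hval x Dm hlink η hη hη0 θ hinj k m'
    (((D + 1) ^ (δ + 1) + 1) ^ m')
  refine ⟨c, hc, C, hC, fun V hV hVD T hT => ?_⟩
  obtain ⟨hb1, hb2⟩ := NF.big (V := V) hVD (δ + 1)
  obtain ⟨hb3, hb4⟩ := NF.big (V := (V ⊔ 1) ^ (δ + 1)) hb2 m'
  have h1 := hcount (((V ⊔ 1) ^ (δ + 1) ⊔ 1) ^ m') hb3 hb4 T hT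
  set B := (Fintype.piFinset fun _ : Fin k => Fintype.piFinset fun _ : Fin (m + 1) => Finset.Icc (-(T : ℤ)) T).filter
        fun n => (∀ i j, Dm ((∑ l, (n i l : ℂ) * η l) + θ j)) ∧
        Rel m' (((V ⊔ 1) ^ (δ + 1) ⊔ 1) ^ m')
          (fun p : Fin k × (Fin r × σ) => x ((∑ l, (n p.1 l : ℂ) * η l) + θ p.2.1) p.2.2) with hB
  have hsub : {n : Fin k → Fin (m + 1) → ℤ | (∀ i l, |n i l| ≤ T) ∧ (∀ i j, Dm ((∑ l, (n i l : ℂ) * η l) + θ j)) ∧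
        Sa.RelA δ d V fun p : (Fin k × Fin r) × σ => x ((∑ l, (n p.1.1 l : ℂ) * η l) + θ p.1.2) p.2} ⊆
        (B : Set (Fin k → Fin (m + 1) → ℤ)) := by
    rintro n ⟨hn, hD, L, hLf, hLd, y, hy, hrel⟩
    rw [hB, Finset.mem_coe, Finset.mem_filter, Fintype.mem_piFinset]
    refine ⟨fun i => ?_, hD, ?_⟩
    · rw [Fintype.mem_piFinset]
      exact fun j => Finset.mem_Icc.2 (abs_le.1 (hn i j))
    · have h2 := (Sa.relL_affine L hLf hLd hy hrel).rel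
      exact h2.reindex (Equiv.prodAssoc _ _ _).symm
  refine ⟨(Finset.finite_toSet B).subset hsub, le_trans ?_ h1⟩
  have h2 := Set.ncard_le_ncard hsub (Finset.finite_toSet B)
  rw [Set.ncard_coe_finset] at h2
  exact_mod_cast h2

end Pool.Agent.Y916.Sl
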