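import Pool.Agent.Y916.Sl.Deg

/-!
# Algebraic integers of bounded degree: few bad points, few bad tuples
-/

set_option autoImplicit false

open Module

namespace Pool.Agent.Y916.Sl

open Pool.Agent.Y113 Pool.Agent.Y916.AW Pool.Agent.Y916.Al

open Classical in
/-- double counting: if every window of length `H + 1` with a large left end has at most `M` bad points, then there are
few large bad points -/
theorem double_count (m : ℕ) (Bd : ℂ → Prop) (M H T : ℕ) (s : ℝ) (hHT : H ≤ T) (hHs : (H : ℝ) ≤ s)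
    (hwin : ∀ ξ, AInt m ((2 * T : ℕ) : ℝ) ξ → s ≤ ‖ξ‖ → ∀ S : Finset ℕ, (∀ g ∈ S, g ≤ H ∧ Bd (ξ + g)) → S.card ≤ M) :
    ((NF m T).filter fun ξ => Bd ξ ∧ 2 * s ≤ ‖ξ‖).card * (H + 1) ≤ M * (NF m (2 * T)).card := by
  set L := (NF m T).filter fun ξ => Bd ξ ∧ 2 * s ≤ ‖ξ‖ with hL
  set G : ℂ → Finset ℕ := fun ξ => (Finset.range (H + 1)).filter fun g => Bd (ξ + g) with hG
  set N := (NF m (2 * T)).filter fun ξ => s ≤ ‖ξ‖ with hN
  have h1 : (L ×ˢ Finset.range (H + 1)).card ≤ (N.sigma G).card := by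
    refine Finset.card_le_card_of_injOn (fun p => (⟨p.1 - (p.2 : ℂ), p.2⟩ : Σ _ : ℂ, ℕ)) ?_ ?_
    · rintro ⟨ξ, g⟩ hp
      rw [Finset.mem_coe, Finset.mem_product] at hp
      obtain ⟨hξ, hg⟩ := hp
      obtain ⟨hξ1, hξ2, hξ3⟩ := Finset.mem_filter.1 hξ
      have hgH : g ≤ H := by have := Finset.mem_range.1 hg; omega
      have hgR : (g : ℝ) ≤ H := by exact_mod_cast hgH
      rw [Finset.mem_coe, Finset.mem_sigma]
      refine ⟨Finset.mem_filter.2 ⟨?_, ?_⟩, Finset.mem_filter.2 ⟨hg, ?_⟩⟩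
      · rw [mem_NF]
        refine ((mem_NF.1 hξ1).sub g).mono ?_
        have h2 : (g : ℝ) ≤ T := by exact_mod_cast hgH.trans hHT
        push_cast
        linarith
      · have h2 := norm_sub_norm_le ξ (g : ℂ)
        rw [Complex.norm_natCast] at h2
        change s ≤ ‖ξ - (g : ℂ)‖
        linarith
      · change Bd (ξ - (g : ℂ) + (g : ℂ))
        rw [sub_add_cancel]
        exact hξ2
    · rintro ⟨ξ, g⟩ - ⟨ξ', g'⟩ - h
      simp only [Sigma.mk.injEq, heq_eq_eq] at h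
      obtain ⟨h2, rfl⟩ := h
      have h3 : ξ = ξ' := sub_left_injective h2
      rw [h3]
  rw [Finset.card_product, Finset.card_range, Finset.card_sigma] at h1
  refine h1.trans ?_
  calc ∑ a ∈ N, (G a).card ≤ ∑ _a ∈ N, M := by
        refine Finset.sum_le_sum fun ξ hξ => ?_
        obtain ⟨hξ1, hξ2⟩ := Finset.mem_filter.1 hξ
        refine hwin ξ (mem_NF.1 hξ1) hξ2 (G ξ) fun g hg => ?_
        obtain ⟨hg1, hg2⟩ := Finset.mem_filter.1 hg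
        exact ⟨by have := Finset.mem_range.1 hg1; omega, hg2⟩
    _ = M * N.card := by rw [Finset.sum_const, smul_eq_mul, mul_comm]
    _ ≤ _ := Nat.mul_le_mul_left _ (Finset.card_filter_le _ _)

open Classical in
/-- few bad points -/
theorem deg_badA {σ : Type} [Fintype σ] [DecidableEq σ] (val : ℂ → ℕ → σ → ℂ) (hval : InpA val) (x : ℂ → σ → ℂ)
    (Dm : ℂ → Prop) (m e τ E₁ : ℕ) (hlink : LinkA val x Dm m e τ E₁) {r : ℕ} (θ : Fin r → ℕ)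
    (hinj : Function.Injective θ) (δ D : ℕ) :
    ∃ c : ℝ, 0 < c ∧ ∃ C : ℝ, 0 ≤ C ∧ ∀ V : Submodule ℚ ℂ, Module.Finite ℚ V → finrank ℚ V ≤ D → ∀ T : ℕ, 1 ≤ T →
      (((NF m T).filter fun ξ => (∀ j, Dm (ξ + θ j)) ∧ Rel δ V (fun p : Fin r × σ => x (ξ + θ p.1) p.2)).card : ℝ) ≤
        C * (T : ℝ) ^ ((Mm m : ℝ) - c) := by
  obtain ⟨M, E, hwin⟩ := hwinS val hval x Dm m e τ E₁ hlink θ hinj 4 δ D
  set E' := E + 1 with hE'
  have hE'0 : (0 : ℝ) < E' := by positivity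
  set ε : ℝ := 1 / (4 * E') with hε
  have hε0 : 0 < ε := by positivity
  have hε1 : ε ≤ 1 / 4 := by
    rw [hε]
    refine one_div_le_one_div_of_le (by norm_num) ?_
    have : (1 : ℝ) ≤ E' := by exact_mod_cast (by omega : 1 ≤ E')
    linarith
  set C₀ : ℝ := (3 * 2 ^ m) ^ m * m with hC₀
  have hC₀0 : 0 ≤ C₀ := by positivity
  set T₀ : ℕ := 3 ^ (4 * E') with hT₀
  have hT₀1 : (1 : ℝ) ≤ T₀ := by
    rw [hT₀]
    push_cast
    exact one_le_pow₀ (by norm_num)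
  refine ⟨ε, hε0, M * (C₀ * 2 ^ Mm m) + 4 * C₀ + C₀ * (T₀ : ℝ) ^ ε, by positivity, fun V hV hVD T hT => ?_⟩
  have hT1 : (1 : ℝ) ≤ T := by exact_mod_cast hT
  have hT0 : (0 : ℝ) < T := by linarith
  obtain ⟨Bd, hBd⟩ : ∃ Bd : ℂ → Prop, ∀ ξ, Bd ξ ↔
      ((∀ j, Dm (ξ + θ j)) ∧ Rel δ V (fun p : Fin r × σ => x (ξ + θ p.1) p.2)) := ⟨_, fun _ => Iff.rfl⟩
  have hgoal : ((NF m T).filter fun ξ => (∀ j, Dm (ξ + θ j)) ∧ Rel δ V (fun p : Fin r × σ => x (ξ + θ p.1) p.2)) =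
      (NF m T).filter fun ξ => Bd ξ := by
    ext ξ
    simp only [Finset.mem_filter, hBd]
  rw [hgoal]
  have hcardT := card_NF m T hT
  have hbase : 0 ≤ (T : ℝ) ^ ((Mm m : ℝ) - ε) := by positivity
  rcases lt_or_ge T T₀ with hTT | hTT
  · have h1 : (((NF m T).filter fun ξ => Bd ξ).card : ℝ) ≤ C₀ * (T : ℝ) ^ Mm m :=
      le_trans (by exact_mod_cast Finset.card_filter_le _ _) hcardT
    refine h1.trans ?_
    have h2 : (T : ℝ) ^ Mm m = (T : ℝ) ^ ε * (T : ℝ) ^ ((Mm m : ℝ) - ε) := by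
      rw [← Real.rpow_add hT0, ← Real.rpow_natCast]
      congr 1
      ring
    have h3 : (T : ℝ) ^ ε ≤ (T₀ : ℝ) ^ ε := Real.rpow_le_rpow hT0.le (by exact_mod_cast hTT.le) hε0.le
    rw [h2]
    calc C₀ * ((T : ℝ) ^ ε * (T : ℝ) ^ ((Mm m : ℝ) - ε)) ≤ C₀ * ((T₀ : ℝ) ^ ε * (T : ℝ) ^ ((Mm m : ℝ) - ε)) :=
          mul_le_mul_of_nonneg_left (mul_le_mul_of_nonneg_right h3 hbase) hC₀0
      _ = (C₀ * (T₀ : ℝ) ^ ε) * (T : ℝ) ^ ((Mm m : ℝ) - ε) := by ring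
      _ ≤ _ := mul_le_mul_of_nonneg_right (by
          have : 0 ≤ (M : ℝ) * (C₀ * 2 ^ Mm m) + 4 * C₀ := by positivity
          linarith) hbase
  -- the main case
  set s : ℝ := (T : ℝ) ^ (1 / 2 : ℝ) with hs
  have hs0 : 0 < s := by positivity
  have hs1 : 1 ≤ s := Real.one_le_rpow hT1 (by norm_num)
  have hss : s * s = T := by
    rw [hs, ← Real.rpow_add hT0]
    norm_num
  set H : ℕ := ⌊(T : ℝ) ^ ε⌋₊ with hH
  have hTε1 : 1 ≤ (T : ℝ) ^ ε := Real.one_le_rpow hT1 hε0.le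
  have hHT : (H : ℝ) ≤ (T : ℝ) ^ ε := Nat.floor_le (by positivity)
  have hH2 : ((H : ℝ) + 2) ^ E' ≤ s := by
    have h1 : (H : ℝ) + 2 ≤ 3 * (T : ℝ) ^ ε := by linarith
    have h2 : (3 : ℝ) ^ E' ≤ (T : ℝ) ^ (1 / 4 : ℝ) := by
      have h3 : ((3 : ℝ) ^ E') = ((3 : ℝ) ^ (4 * E')) ^ (1 / 4 : ℝ) := by
        rw [← Real.rpow_natCast, ← Real.rpow_natCast, ← Real.rpow_mul (by norm_num)]
        congr 1
        push_cast
        ring
      rw [h3]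
      refine Real.rpow_le_rpow (by positivity) ?_ (by norm_num)
      have h4 : ((T₀ : ℕ) : ℝ) ≤ T := by exact_mod_cast hTT
      rw [hT₀] at h4
      push_cast at h4
      exact h4
    calc ((H : ℝ) + 2) ^ E' ≤ (3 * (T : ℝ) ^ ε) ^ E' := pow_le_pow_left₀ (by positivity) h1 _
      _ = 3 ^ E' * ((T : ℝ) ^ ε) ^ E' := by rw [mul_pow]
      _ = 3 ^ E' * (T : ℝ) ^ (1 / 4 : ℝ) := by
          rw [← Real.rpow_natCast ((T : ℝ) ^ ε) E', ← Real.rpow_mul hT0.le]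
          congr 2
          rw [hε]
          field_simp
      _ ≤ (T : ℝ) ^ (1 / 4 : ℝ) * (T : ℝ) ^ (1 / 4 : ℝ) := mul_le_mul_of_nonneg_right h2 (by positivity)
      _ = s := by
          rw [hs, ← Real.rpow_add hT0]
          norm_num
  have hH0 : (0 : ℝ) ≤ H := Nat.cast_nonneg H
  have hHs : (H : ℝ) ≤ s := by
    have h1 : (H : ℝ) + 2 ≤ ((H : ℝ) + 2) ^ E' := le_self_pow₀ (by linarith) (by omega)
    linarith
  have hHE : ((H : ℝ) + 2) ^ E ≤ s := (pow_le_pow_right₀ (by linarith) (by omega)).trans hH2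
  have hsT : s ≤ T := by nlinarith
  have hHTn : H ≤ T := by exact_mod_cast hHs.trans hsT
  have hs2 : 2 ≤ s := by
    have h1 : (H : ℝ) + 2 ≤ ((H : ℝ) + 2) ^ E' := le_self_pow₀ (by linarith) (by omega)
    linarith
  have hdc := double_count m Bd M H T s hHTn hHs (by
    intro ξ hξ hsξ S hS
    obtain ⟨K, ξ', hKf, hKd, hξ', hPt⟩ := hξ.pt (by
      push_cast
      linarith)
    refine hwin V hV hVD H K ξ' _ hKf hKd hPt (by rw [hξ']; exact hHE.trans hsξ) ?_ (-1) (Or.inr rfl) S ?_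
    · rw [hξ']
      push_cast
      calc 2 * (T : ℝ) ≤ T * T := by
            have : 2 ≤ (T : ℝ) := hs2.trans hsT
            nlinarith
        _ = s ^ 4 := by rw [← hss]; ring
        _ ≤ ‖ξ‖ ^ 4 := pow_le_pow_left₀ hs0.le hsξ 4
    · intro g hg
      obtain ⟨h1, h2⟩ := hS g hg
      have h3 : (ξ' : ℂ) - ((-1 : ℤ) : ℂ) * (g : ℂ) = ξ + g := by
        rw [hξ']
        push_cast
        ring
      refine ⟨h1, ?_⟩
      rw [h3]
      exact (hBd _).1 h2)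
  -- the large points
  set L := (NF m T).filter fun ξ => Bd ξ ∧ 2 * s ≤ ‖ξ‖ with hL
  have hLc : (L.card : ℝ) ≤ M * (C₀ * 2 ^ Mm m) * (T : ℝ) ^ ((Mm m : ℝ) - ε) := by
    have h1 : (L.card : ℝ) * ((H : ℝ) + 1) ≤ M * ((NF m (2 * T)).card : ℝ) := by exact_mod_cast hdc
    have h2 : (T : ℝ) ^ ε ≤ (H : ℝ) + 1 := (Nat.lt_floor_add_one _).le
    have h3 := card_NF m (2 * T) (by omega)
    have h4 : (L.card : ℝ) * (T : ℝ) ^ ε ≤ M * (C₀ * 2 ^ Mm m) * (T : ℝ) ^ Mm m := by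
      calc (L.card : ℝ) * (T : ℝ) ^ ε ≤ (L.card : ℝ) * ((H : ℝ) + 1) := mul_le_mul_of_nonneg_left h2 (Nat.cast_nonneg _)
        _ ≤ M * ((NF m (2 * T)).card : ℝ) := h1
        _ ≤ M * (C₀ * ((2 * T : ℕ) : ℝ) ^ Mm m) := mul_le_mul_of_nonneg_left h3 (Nat.cast_nonneg _)
        _ = _ := by push_cast; rw [mul_pow]; ring
    have h5 : (T : ℝ) ^ ((Mm m : ℝ) - ε) = (T : ℝ) ^ Mm m / (T : ℝ) ^ ε := by
      rw [Real.rpow_sub hT0, Real.rpow_natCast]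
    rw [h5, ← mul_div_assoc, le_div_iff₀ (by positivity)]
    exact h4
  -- the small points
  set B : ℕ := ⌈2 * s⌉₊ with hB
  have hB1 : 1 ≤ B := Nat.one_le_ceil_iff.2 (by linarith)
  have hBs : (B : ℝ) ≤ 4 * s := by
    have h1 := Nat.ceil_lt_add_one (show (0 : ℝ) ≤ 2 * s by linarith)
    have h2 : (B : ℝ) < 2 * s + 1 := h1
    linarith
  set Sm := (NF m T).filter fun ξ => ‖ξ‖ ≤ B with hSm
  have hSc : (Sm.card : ℝ) ≤ 4 * C₀ * (T : ℝ) ^ ((Mm m : ℝ) - ε) := by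
    have h1 := card_small m T B hT hB1
    have h2 : (Sm.card : ℝ) * T ≤ C₀ * (4 * s) * (T : ℝ) ^ Mm m := by
      refine h1.trans ?_
      refine mul_le_mul_of_nonneg_right ?_ (by positivity)
      exact mul_le_mul_of_nonneg_left hBs hC₀0
    have h3 : (Sm.card : ℝ) * s ≤ 4 * C₀ * (T : ℝ) ^ Mm m := by
      rw [← hss] at h2
      have h4 : (Sm.card : ℝ) * s * s ≤ 4 * C₀ * (s * s) ^ Mm m * s := by
        calc (Sm.card : ℝ) * s * s = (Sm.card : ℝ) * (s * s) := by ring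
          _ ≤ C₀ * (4 * s) * (s * s) ^ Mm m := h2
          _ = _ := by ring
      have h5 := le_of_mul_le_mul_right h4 hs0
      rw [hss] at h5
      exact h5
    have h5 : (T : ℝ) ^ ((Mm m : ℝ) - ε) = (T : ℝ) ^ Mm m / (T : ℝ) ^ ε := by
      rw [Real.rpow_sub hT0, Real.rpow_natCast]
    rw [h5, ← mul_div_assoc, le_div_iff₀ (by positivity)]
    refine le_trans ?_ h3
    refine mul_le_mul_of_nonneg_left ?_ (Nat.cast_nonneg _)
    rw [hs]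
    exact Real.rpow_le_rpow_of_exponent_le hT1 (by linarith)
  have hcov : (NF m T).filter (fun ξ => Bd ξ) ⊆ L ∪ Sm := by
    intro ξ hξ
    obtain ⟨hξ1, hξ2⟩ := Finset.mem_filter.1 hξ
    rw [Finset.mem_union]
    rcases le_total (2 * s) ‖ξ‖ with h | h
    · exact Or.inl (Finset.mem_filter.2 ⟨hξ1, hξ2, h⟩)
    · exact Or.inr (Finset.mem_filter.2 ⟨hξ1, h.trans (Nat.le_ceil _)⟩)
  calc (((NF m T).filter fun ξ => Bd ξ).card : ℝ) ≤ ((L ∪ Sm).card : ℝ) := by exact_mod_cast Finset.card_le_card hcov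
    _ ≤ L.card + Sm.card := by exact_mod_cast Finset.card_union_le _ _
    _ ≤ M * (C₀ * 2 ^ Mm m) * (T : ℝ) ^ ((Mm m : ℝ) - ε) + 4 * C₀ * (T : ℝ) ^ ((Mm m : ℝ) - ε) := add_le_add hLc hSc
    _ = (M * (C₀ * 2 ^ Mm m) + 4 * C₀) * (T : ℝ) ^ ((Mm m : ℝ) - ε) := by ring
    _ ≤ _ := mul_le_mul_of_nonneg_right (by
        have : 0 ≤ C₀ * (T₀ : ℝ) ^ ε := by positivity
        linarith) hbase

open Classical in
/-- few bad tuples, affine changes and coefficients in number fields -/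
theorem deg_A {σ : Type} [Fintype σ] [DecidableEq σ] (val : ℂ → ℕ → σ → ℂ) (hval : InpA val)
    (x : ℂ → σ → ℂ) (Dm : ℂ → Prop) (m : ℕ) (hlink : ∃ e τ E, LinkA val x Dm m e τ E) {r : ℕ} (θ : Fin r → ℕ)
    (hinj : Function.Injective θ) (k δ d D : ℕ) :
    ∃ c : ℝ, 0 < c ∧ ∃ C : ℝ, 0 ≤ C ∧ ∀ V : Submodule ℚ ℂ, Module.Finite ℚ V → finrank ℚ V ≤ D → ∀ T : ℕ, 1 ≤ T →
      {ξ : Fin k → ℂ | (∀ i, AInt m T (ξ i)) ∧ (∀ i j, Dm (ξ i + θ j)) ∧
        Sa.RelA δ d V fun p : (Fin k × Fin r) × σ => x (ξ p.1.1 + θ p.1.2) p.2}.Finite ∧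
      ({ξ : Fin k → ℂ | (∀ i, AInt m T (ξ i)) ∧ (∀ i j, Dm (ξ i + θ j)) ∧
        Sa.RelA δ d V fun p : (Fin k × Fin r) × σ => x (ξ p.1.1 + θ p.1.2) p.2}.ncard : ℝ) ≤
        C * (T : ℝ) ^ (((k * Mm m : ℕ) : ℝ) - c) := by
  obtain ⟨e, τ, E, hlink⟩ := hlink
  set m' := d ^ d * (δ + 1) with hm'
  obtain ⟨c, hc, C, hC, hcount⟩ := tuples_count (fun T : ℕ => (NF m T).filter fun ξ => ∀ j, Dm (ξ + θ j))
    (fun (ξ : ℂ) (p : Fin r × σ) => x (ξ + θ p.1) p.2) (Mm m) ((3 * 2 ^ m) ^ m * m) (by positivity) (by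
      intro T hT
      refine le_trans ?_ (card_NF m T hT)
      exact_mod_cast Finset.card_filter_le _ _) (fun δ D => by
        obtain ⟨c, hc, C, hC, h⟩ := deg_badA val hval x Dm m e τ E hlink θ hinj δ D
        refine ⟨c, hc, C, hC, fun V hV hVD T hT => le_trans (le_of_eq ?_) (h V hV hVD T hT)⟩
        congr 2
        ext n
        simp only [Finset.mem_filter, and_assoc]) m' k (((D + 1) ^ (δ + 1) + 1) ^ m')
  refine ⟨c, hc, C, hC, fun V hV hVD T hT => ?_⟩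
  obtain ⟨hb1, hb2⟩ := NF.big (V := V) hVD (δ + 1)
  obtain ⟨hb3, hb4⟩ := NF.big (V := (V ⊔ 1) ^ (δ + 1)) hb2 m'
  have h1 := hcount (((V ⊔ 1) ^ (δ + 1) ⊔ 1) ^ m') hb3 hb4 T hT
  set B := (Fintype.piFinset fun _ : Fin k => (NF m T).filter fun ξ => ∀ j, Dm (ξ + θ j)).filter
        fun t => Rel m' (((V ⊔ 1) ^ (δ + 1) ⊔ 1) ^ m')
          (fun p : Fin k × (Fin r × σ) => x (t p.1 + θ p.2.1) p.2.2) with hB
  have hsub : {ξ : Fin k → ℂ | (∀ i, AInt m T (ξ i)) ∧ (∀ i j, Dm (ξ i + θ j)) ∧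
        Sa.RelA δ d V fun p : (Fin k × Fin r) × σ => x (ξ p.1.1 + θ p.1.2) p.2} ⊆ (B : Set (Fin k → ℂ)) := by
    rintro ξ ⟨hξ, hD, L, hLf, hLd, y, hy, hrel⟩
    rw [hB, Finset.mem_coe, Finset.mem_filter, Fintype.mem_piFinset]
    refine ⟨fun i => Finset.mem_filter.2 ⟨mem_NF.2 (hξ i), hD i⟩, ?_⟩
    have h2 := (Sa.relL_affine L hLf hLd hy hrel).rel
    exact h2.reindex (Equiv.prodAssoc _ _ _).symm
  refine ⟨(Finset.finite_toSet B).subset hsub, le_trans ?_ h1⟩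
  have h2 := Set.ncard_le_ncard hsub (Finset.finite_toSet B)
  rw [Set.ncard_coe_finset] at h2
  exact_mod_cast h2

end Pool.Agent.Y916.Sl
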