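import Pool.Agent.Y916.Sl.Sal

/-!
# Integrals of the three kinds on hyperelliptic curves at points of number fields: tuples and windows
-/

set_option autoImplicit false

open Module PowerSeries Filter Topology

namespace Pool.Agent.Y916.Sl

open Pool.Agent.Y113 Pool.Agent.Y916.AW Pool.Agent.Y916.Al Pool.Agent.Y916.Hy Pool.Agent.Y916.Sa Pool.Agent.Y916.Fld

theorem inp_s (h : S_valcS) {s : ℕ} {F q : Fin s → Polynomial ℤ} (hG : ∀ a, GoodP (F a) (q a)) (hD : Dist F) :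
    InpA (vS (PP F q) (mm F q)) := inpA_of h (fun a => goodO (hG a)) (lisT s F q hG hD)

/-- the family of the constants `κ` and `2πi` -/
noncomputable def kp {s : ℕ} {F q : Fin s → Polynomial ℤ} (κ : Id F q → ℂ) : Id F q ⊕ Unit → ℂ :=
  Sum.elim κ fun _ => 2 * Real.pi * Complex.I

/-- **Tuples** -/
theorem tuplesN (hvalc : S_valcS) (hsqi : S_sqi) (hprim : S_prim) {s : ℕ} (F q : Fin s → Polynomial ℤ)
    (hG : ∀ a, GoodP (F a) (q a)) (hD : Dist F) {u₀ : ℂ} (hu₀ : u₀ ≠ 0) {R : ℝ} {S : Fin s → ℂ → ℂ}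
    {Φ : Id F q → ℂ → ℂ} (hP : IsPrim F q u₀ R S Φ) {m r : ℕ} (η : Fin (m + 1) → ℂ) (hη : ∀ j, IsAlgebraic ℚ (η j))
    (hη0 : η 0 = 1) (θ : Fin r → ℕ) (hθ : Function.Injective θ) (k δ d D : ℕ) :
    ∃ c : ℝ, 0 < c ∧ ∃ C : ℝ, 0 ≤ C ∧ ∀ V : Submodule ℚ ℂ, Module.Finite ℚ V → finrank ℚ V ≤ D → ∀ T : ℕ, 1 ≤ T →
      {n : Fin k → Fin (m + 1) → ℤ | (∀ i l, |n i l| ≤ T) ∧ (∀ i j, DmS u₀ R ((∑ l, (n i l : ℂ) * η l) + θ j)) ∧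
        RelA δ d V fun p : (Fin k × Fin r) × Tau (mm F q) => xP F q Φ ((∑ l, (n p.1.1 l : ℂ) * η l) + θ p.1.2) p.2}.Finite ∧
      ({n : Fin k → Fin (m + 1) → ℤ | (∀ i l, |n i l| ≤ T) ∧ (∀ i j, DmS u₀ R ((∑ l, (n i l : ℂ) * η l) + θ j)) ∧
        RelA δ d V fun p : (Fin k × Fin r) × Tau (mm F q) => xP F q Φ ((∑ l, (n p.1.1 l : ℂ) * η l) + θ p.1.2) p.2}.ncard :
        ℝ) ≤ C * (T : ℝ) ^ (((k * (m + 1) : ℕ) : ℝ) - c) := by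
  obtain ⟨κ, -, hlink⟩ := linkS' hprim hsqi hG hu₀ hP
  exact lattice_A (vS (PP F q) (mm F q)) (inp_s hvalc hG hD) (xP F q Φ) (DmS u₀ R) (fun m => by
    obtain ⟨E, hE⟩ := hlink _ (kp κ) (by
      rintro _ ⟨p, rfl⟩
      exact ⟨Sum.inl p, rfl⟩) ⟨Sum.inr (), rfl⟩ m
    exact ⟨_, _, E, hE.toA⟩) η hη hη0 θ hθ k δ d D

/-- **Windows** -/
theorem windowsN (hvalc : S_valcS) (hsqi : S_sqi) (hprim : S_prim) {s : ℕ} (F q : Fin s → Polynomial ℤ)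
    (hG : ∀ a, GoodP (F a) (q a)) (hD : Dist F) {u₀ : ℂ} (hu₀ : u₀ ≠ 0) {R : ℝ} {S : Fin s → ℂ → ℂ}
    {Φ : Id F q → ℂ → ℂ} (hP : IsPrim F q u₀ R S Φ) :
    ∃ κ : Id F q → ℂ, (∃ R' : ℝ, ∀ x : ℂ, R' < ‖x‖ → x / u₀ ∈ Complex.slitPlane → ∀ p : Id F q,
      ((PP F q p.1).leadingCoeff : ℂ) * (Φ p x - κ p) ^ 2 =
        x ^ (2 * ((p.2 : ℕ) : ℤ) + 2 - (PP F q p.1).natDegree) * evc (1 / x) (US (PP F q p.1) 0 p.2) ^ 2) ∧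
      ∀ (υ : Type) [Fintype υ] (u : υ → ℂ), Set.range κ ⊆ Set.range u → 2 * Real.pi * Complex.I ∈ Set.range u →
      ∀ r m A d δ τ : ℕ, ∃ E : ℕ, ∀ (H : ℕ) (ξ : ℂ), ((H : ℝ) + 2) ^ E ≤ ‖ξ‖ → Ht m A ξ → ∀ w : Fin τ → ℂ,
      ∃ T : Finset ℕ,
        (T.card : Cardinal) ≤ τ + 1 + Algebra.trdeg ℚ (IntermediateField.adjoin ℚ (Set.range u)) ∧
        ∀ g : Fin r → ℕ, Function.Injective g → (∀ i, 1 ≤ g i ∧ g i ≤ H ∧ g i ∉ T ∧ DmS u₀ R (ξ + g i)) →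
        ∀ K : IntermediateField ℚ ℂ, FiniteDimensional ℚ K → finrank ℚ K ≤ d →
        ∀ y : Fin r × Tau (mm F q) → ℂ, (∀ p, ∃ b : K, b ≠ 0 ∧ y p - b * xP F q Φ (ξ + g p.1) p.2 ∈
            Submodule.span K (insert 1 (Set.range (Sum.elim w u)))) →
        ∀ P : MvPolynomial ((Fin τ ⊕ υ) ⊕ Fin r × Tau (mm F q)) K,
          P.totalDegree ≤ δ → MvPolynomial.aeval (Sum.elim (Sum.elim w u) y) P = 0 →
          MvPolynomial.aeval (Sum.elim (fun j => MvPolynomial.C (Sum.elim w u j)) MvPolynomial.X) P =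
            (0 : MvPolynomial (Fin r × Tau (mm F q)) ℂ) := by
  obtain ⟨κ, hκ, hlink⟩ := linkS' hprim hsqi hG hu₀ hP
  refine ⟨κ, hκ, fun υ _ u hu hpi r m A d δ τ => ?_⟩
  obtain ⟨E, hE⟩ := hlink υ u hu hpi m
  exact windowHt (vS (PP F q) (mm F q)) (inp_s hvalc hG hD) (xP F q Φ) (DmS u₀ R) u m _ E hE r d δ τ A

end Pool.Agent.Y916.Sl
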