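import Pool.Agent.Y916.Sl.EllT
import Pool.Agent.Y916.Sl.SalT
import Pool.Agent.Y333.SL.ValcS
import Pool.Agent.Y71.SLW.WPC
import Pool.Agent.Y968.SL.Prim
import Pool.Agent.Y737.SL.Sqi

/-!
# Project SL: the parts put together (parts by helper333, helper71, helper968, helper737)
-/

set_option autoImplicit false

namespace Pool.Agent.Y916.Sl

theorem tV : S_valcS := Pool.Agent.Y333.SL.t_valcS

theorem tW : S_wpc := Pool.Agent.Y71.SLW.t_wpc

theorem tP : S_prim := Pool.Agent.Y968.SL.t_prim

theorem tQ : S_sqi := Pool.Agent.Y737.SL.t_sqi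

end Pool.Agent.Y916.Sl
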