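import Pool.Agent.Y916.Sl.Cnt

/-!
# Algebraic integers of bounded degree: counting
-/

set_option autoImplicit false

open Module

namespace Pool.Agent.Y916.Sl

open Pool.Agent.Y113 Pool.Agent.Y916.AW Pool.Agent.Y916.Al

/-- roots of monic integral polynomials of degree `m` all of whose complex roots are at most `T` -/
def AInt (m : ℕ) (T : ℝ) (ξ : ℂ) : Prop :=
  ∃ f : Polynomial ℤ, f.Monic ∧ f.natDegree = m ∧ Polynomial.aeval ξ f = 0 ∧
    ∀ z : ℂ, Polynomial.aeval z f = 0 → ‖z‖ ≤ T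

theorem AInt.mono {m : ℕ} {T T' : ℝ} (h : T ≤ T') {ξ : ℂ} (hξ : AInt m T ξ) : AInt m T' ξ := by
  obtain ⟨f, h1, h2, h3, h4⟩ := hξ
  exact ⟨f, h1, h2, h3, fun z hz => (h4 z hz).trans h⟩

theorem AInt.sub {m : ℕ} {T : ℝ} {ξ : ℂ} (hξ : AInt m T ξ) (g : ℕ) : AInt m (T + g) (ξ - g) := by
  obtain ⟨f, h1, h2, h3, h4⟩ := hξ
  have hev : ∀ z : ℂ, Polynomial.aeval z (f.comp (Polynomial.X + Polynomial.C (g : ℤ))) = Polynomial.aeval (z + g) f := by
    intro z
    rw [Polynomial.aeval_comp]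
    congr 1
    simp
  refine ⟨f.comp (Polynomial.X + Polynomial.C (g : ℤ)), h1.comp_X_add_C _, ?_, ?_, fun z hz => ?_⟩
  · rw [Polynomial.natDegree_comp, Polynomial.natDegree_X_add_C, mul_one, h2]
  · rw [hev, sub_add_cancel]
    exact h3
  · rw [hev] at hz
    have h5 := h4 _ hz
    have h6 := norm_sub_norm_le z (-(g : ℂ))
    rw [norm_neg, Complex.norm_natCast, sub_neg_eq_add] at h6
    linarith

theorem AInt.pt {m : ℕ} {T : ℝ} (hT : 1 ≤ T) {ξ : ℂ} (hξ : AInt m T ξ) :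
    ∃ (K : IntermediateField ℚ ℂ) (ξ' : K), FiniteDimensional ℚ K ∧ finrank ℚ K ≤ m ∧ (ξ' : ℂ) = ξ ∧
      Al.Pt K ξ' T := by
  obtain ⟨f, h1, h2, h3, h4⟩ := hξ
  have hint : IsIntegral ℤ ξ := ⟨f, h1, h3⟩
  have hintQ : IsIntegral ℚ ξ := hint.tower_top
  have hfQ : Polynomial.aeval ξ (f.map (Int.castRingHom ℚ)) = 0 :=
    (Polynomial.aeval_map_algebraMap ℚ ξ f).trans h3
  refine ⟨IntermediateField.adjoin ℚ {ξ}, ⟨ξ, IntermediateField.mem_adjoin_simple_self ℚ ξ⟩,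
    IntermediateField.adjoin.finiteDimensional hintQ, ?_, rfl, ?_⟩
  · rw [IntermediateField.adjoin.finrank hintQ]
    refine (Polynomial.natDegree_le_of_dvd (minpoly.dvd ℚ ξ hfQ) (h1.map _).ne_zero).trans ?_
    rw [h1.natDegree_map, h2]
  · set ξ' : IntermediateField.adjoin ℚ {ξ} := ⟨ξ, IntermediateField.mem_adjoin_simple_self ℚ ξ⟩ with hξ'
    have h0 : Polynomial.aeval ξ' f = 0 := by
      apply (algebraMap (IntermediateField.adjoin ℚ {ξ}) ℂ).injective
      rw [← Polynomial.aeval_algebraMap_apply, map_zero]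
      exact h3
    refine ⟨ξ', 1, ⟨f, h1, h0⟩, isIntegral_one, one_ne_zero, by rw [div_one], fun σ => ⟨h4 _ ?_, ?_⟩⟩
    · have h5 := Polynomial.hom_eval₂ f (algebraMap ℤ (IntermediateField.adjoin ℚ {ξ})) σ ξ'
      have h6 : Polynomial.eval₂ (algebraMap ℤ (IntermediateField.adjoin ℚ {ξ})) ξ' f = 0 := h0
      rw [h6, map_zero] at h5
      have h7 : σ.comp (algebraMap ℤ (IntermediateField.adjoin ℚ {ξ})) = algebraMap ℤ ℂ := RingHom.ext_int _ _
      rw [h7] at h5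
      exact h5.symm
    · rw [map_one, norm_one]
      exact hT

/-- the monic polynomial with given lower coefficients -/
noncomputable def pol (m : ℕ) (a : Fin m → ℤ) : Polynomial ℤ :=
  Polynomial.X ^ m + ∑ i : Fin m, Polynomial.C (a i) * Polynomial.X ^ (i : ℕ)

theorem pol_coeff {m : ℕ} {f : Polynomial ℤ} (h : f.Monic) (hm : f.natDegree = m) :
    pol m (fun i => f.coeff i) = f := by
  subst hm
  unfold pol
  rw [Finset.sum_fin_eq_sum_range]
  conv_rhs => rw [h.as_sum]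
  congr 1
  refine Finset.sum_congr rfl fun i hi => ?_
  rw [dif_pos (Finset.mem_range.1 hi)]

theorem pol_deg (m : ℕ) (a : Fin m → ℤ) : (pol m a).natDegree ≤ m := by
  unfold pol
  refine Polynomial.natDegree_add_le_of_degree_le (Polynomial.natDegree_X_pow_le m) ?_
  refine Polynomial.natDegree_sum_le_of_forall_le _ _ fun i _ => ?_
  exact (Polynomial.natDegree_C_mul_X_pow_le _ _).trans i.2.le

open Classical in
/-- the roots of the monic polynomials with coefficients bounded by `b` -/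
noncomputable def RS (m : ℕ) (b : Fin m → ℕ) : Finset ℂ :=
  (Fintype.piFinset fun i => Finset.Icc (-(b i : ℤ)) (b i)).biUnion fun a =>
    ((pol m a).map (Int.castRingHom ℂ)).roots.toFinset

theorem card_RS (m : ℕ) (b : Fin m → ℕ) : (RS m b).card ≤ (∏ i, (2 * b i + 1)) * m := by
  classical
  unfold RS
  refine (Finset.card_biUnion_le_card_mul _ _ m fun a _ => ?_).trans ?_
  · refine (Multiset.toFinset_card_le _).trans ((Polynomial.card_roots' _).trans ?_)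
    exact (Polynomial.natDegree_map_le).trans (pol_deg m a)
  · refine Nat.mul_le_mul_right _ ?_
    rw [Fintype.card_piFinset]
    refine Finset.prod_le_prod' fun i _ => ?_
    rw [Int.card_Icc]
    omega

theorem mem_RS {m : ℕ} {b : Fin m → ℕ} {ξ : ℂ} {f : Polynomial ℤ} (h1 : f.Monic) (h2 : f.natDegree = m)
    (h3 : Polynomial.aeval ξ f = 0) (h4 : ∀ i : Fin m, |f.coeff i| ≤ b i) : ξ ∈ RS m b := by
  classical
  unfold RS
  rw [Finset.mem_biUnion]
  refine ⟨fun i => f.coeff i, ?_, ?_⟩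
  · rw [Fintype.mem_piFinset]
    exact fun i => Finset.mem_Icc.2 (abs_le.1 (h4 i))
  · rw [pol_coeff h1 h2, Multiset.mem_toFinset, Polynomial.mem_roots (h1.map _).ne_zero, Polynomial.IsRoot.def,
      Polynomial.eval_map]
    exact h3

/-- coefficients -/
theorem coeff_bound {m : ℕ} {f : Polynomial ℤ} (h1 : f.Monic) (h2 : f.natDegree = m) {T : ℕ}
    (h4 : ∀ z : ℂ, Polynomial.aeval z f = 0 → ‖z‖ ≤ T) (i : ℕ) : |f.coeff i| ≤ (2 ^ m * T ^ (m - i) : ℕ) := by
  have h5 := Polynomial.coeff_le_of_roots_le (f := Int.castRingHom ℂ) (B := (T : ℝ)) i h1 (IsAlgClosed.splits _)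
    (fun z hz => h4 z (by
      rw [Polynomial.mem_roots (h1.map _).ne_zero, Polynomial.IsRoot.def, Polynomial.eval_map] at hz
      exact hz))
  rw [Polynomial.coeff_map, eq_intCast, Complex.norm_intCast, h2] at h5
  have h6 : ((m.choose i : ℕ) : ℝ) ≤ 2 ^ m := by
    have := Nat.choose_le_two_pow m i
    exact_mod_cast this
  have h7 : |((f.coeff i : ℤ) : ℝ)| ≤ ((2 ^ m * T ^ (m - i) : ℕ) : ℝ) := by
    refine h5.trans ?_
    push_cast
    rw [mul_comm]
    exact mul_le_mul_of_nonneg_right h6 (by positivity)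
  exact_mod_cast h7

/-- the constant coefficient -/
theorem coeff_zero_bound {m : ℕ} (hm : 1 ≤ m) {f : Polynomial ℤ} (h1 : f.Monic) (h2 : f.natDegree = m) {T B : ℕ}
    (h4 : ∀ z : ℂ, Polynomial.aeval z f = 0 → ‖z‖ ≤ T) {ξ : ℂ} (h3 : Polynomial.aeval ξ f = 0) (hξ : ‖ξ‖ ≤ B) :
    |f.coeff 0| ≤ (B * T ^ (m - 1) : ℕ) := by
  classical
  set F := f.map (Int.castRingHom ℂ) with hF
  have hmon : F.Monic := h1.map _
  have hroot : ∀ z, z ∈ F.roots ↔ Polynomial.aeval z f = 0 := by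
    intro z
    rw [Polynomial.mem_roots hmon.ne_zero, Polynomial.IsRoot.def, hF, Polynomial.eval_map]
    rfl
  have hs : F.Splits := IsAlgClosed.splits _
  have h5 := hs.coeff_zero_eq_prod_roots_of_monic hmon
  have hmem : ξ ∈ F.roots := (hroot ξ).2 h3
  rw [← Multiset.cons_erase hmem, Multiset.prod_cons] at h5
  have hcard : (F.roots.erase ξ).card = m - 1 := by
    rw [Multiset.card_erase_of_mem hmem, ← hs.natDegree_eq_card_roots, hF, h1.natDegree_map, h2]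
    rfl
  have h6 : ‖(F.roots.erase ξ).prod‖ ≤ (T : ℝ) ^ (m - 1) := by
    rw [← hcard]
    have h7 : ∀ s : Multiset ℂ, (∀ z ∈ s, ‖z‖ ≤ T) → ‖s.prod‖ ≤ (T : ℝ) ^ s.card := by
      intro s
      induction s using Multiset.induction_on with
      | empty => intro _; simp
      | cons z s ih =>
        intro hz
        rw [Multiset.prod_cons, norm_mul, Multiset.card_cons, pow_succ']
        exact mul_le_mul (hz z (Multiset.mem_cons_self z s)) (ih fun w hw => hz w (Multiset.mem_cons_of_mem hw))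
          (norm_nonneg _) (Nat.cast_nonneg T)
    exact h7 _ fun z hz => h4 z ((hroot z).1 (Multiset.mem_of_mem_erase hz))
  have h7 : |((f.coeff 0 : ℤ) : ℝ)| ≤ ((B * T ^ (m - 1) : ℕ) : ℝ) := by
    have h8 : F.coeff 0 = ((f.coeff 0 : ℤ) : ℂ) := by
      rw [hF, Polynomial.coeff_map, eq_intCast]
    have h9 : ‖F.coeff 0‖ = |((f.coeff 0 : ℤ) : ℝ)| := by
      rw [h8, Complex.norm_intCast]
    rw [← h9, h5, norm_mul, norm_pow, norm_neg, norm_one, one_pow, one_mul, norm_mul]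
    push_cast
    exact mul_le_mul hξ h6 (norm_nonneg _) (Nat.cast_nonneg B)
  exact_mod_cast h7

open Classical in
/-- the set of the points -/
noncomputable def NF (m T : ℕ) : Finset ℂ := (RS m fun i => 2 ^ m * T ^ (m - i)).filter fun ξ => AInt m T ξ

theorem mem_NF {m T : ℕ} {ξ : ℂ} : ξ ∈ NF m T ↔ AInt m T ξ := by
  classical
  unfold NF
  rw [Finset.mem_filter]
  refine ⟨fun h => h.2, fun h => ⟨?_, h⟩⟩
  obtain ⟨f, h1, h2, h3, h4⟩ := h
  exact mem_RS h1 h2 h3 fun i => coeff_bound h1 h2 h4 i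

/-- the exponent -/
def Mm (m : ℕ) : ℕ := ∑ i : Fin m, (m - (i : ℕ))

theorem Mm_eq (m : ℕ) : Mm m = m * (m + 1) / 2 := by
  unfold Mm
  rw [Fin.sum_univ_eq_sum_range (fun i => m - i) m]
  have h1 := Finset.sum_range_reflect (fun i => i + 1) m
  have h2 : ∑ j ∈ Finset.range m, (m - 1 - j + 1) = ∑ j ∈ Finset.range m, (m - j) :=
    Finset.sum_congr rfl fun j hj => by
      have := Finset.mem_range.1 hj
      omega
  have h3 : ∑ j ∈ Finset.range m, (j + 1) = m * (m + 1) / 2 := by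
    have h4 := Finset.sum_range_succ' (fun j => j) m
    simp only [add_zero] at h4
    rw [← h4, Finset.sum_range_id, Nat.add_sub_cancel, mul_comm]
  rw [← h2, h1, h3]

theorem card_NF (m T : ℕ) (hT : 1 ≤ T) : ((NF m T).card : ℝ) ≤ ((3 * 2 ^ m) ^ m * m : ℝ) * (T : ℝ) ^ Mm m := by
  classical
  have h1 : (NF m T).card ≤ (∏ i : Fin m, (2 * (2 ^ m * T ^ (m - (i : ℕ))) + 1)) * m :=
    (Finset.card_filter_le _ _).trans (card_RS m _)
  have h2 : ∏ i : Fin m, (2 * (2 ^ m * T ^ (m - (i : ℕ))) + 1) ≤ ∏ i : Fin m, (3 * 2 ^ m * T ^ (m - (i : ℕ))) := by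
    refine Finset.prod_le_prod' fun i _ => ?_
    have h3 : 1 ≤ 2 ^ m * T ^ (m - (i : ℕ)) := Nat.one_le_iff_ne_zero.2 (by positivity)
    nlinarith
  have h3 : ∏ i : Fin m, (3 * 2 ^ m * T ^ (m - (i : ℕ))) = (3 * 2 ^ m) ^ m * T ^ Mm m := by
    rw [Finset.prod_mul_distrib, Finset.prod_const, Finset.card_univ, Fintype.card_fin, Finset.prod_pow_eq_pow_sum]
    rfl
  have h4 : (NF m T).card ≤ (3 * 2 ^ m) ^ m * T ^ Mm m * m := by
    rw [← h3]
    exact h1.trans (Nat.mul_le_mul_right _ h2)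
  calc ((NF m T).card : ℝ) ≤ (((3 * 2 ^ m) ^ m * T ^ Mm m * m : ℕ) : ℝ) := by exact_mod_cast h4
    _ = _ := by push_cast; ring

open Classical in
/-- few small points -/
theorem card_small (m T B : ℕ) (hT : 1 ≤ T) (hB : 1 ≤ B) :
    (((NF m T).filter fun ξ => ‖ξ‖ ≤ B).card : ℝ) * T ≤ ((3 * 2 ^ m) ^ m * m : ℝ) * B * (T : ℝ) ^ Mm m := by
  rcases Nat.eq_zero_or_pos m with hm | hm
  · subst hm
    have h1 : (NF 0 T).filter (fun ξ => ‖ξ‖ ≤ B) = ∅ := by
      rw [Finset.filter_eq_empty_iff]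
      intro ξ hξ
      obtain ⟨f, h1, h2, h3, -⟩ := mem_NF.1 hξ
      rw [h1.natDegree_eq_zero.1 h2] at h3
      simp at h3
    rw [h1]
    simp
  set b : Fin m → ℕ := fun i => if (i : ℕ) = 0 then B * T ^ (m - 1) else 2 ^ m * T ^ (m - (i : ℕ)) with hb
  have hsub : (NF m T).filter (fun ξ => ‖ξ‖ ≤ B) ⊆ RS m b := by
    intro ξ hξ
    obtain ⟨hξ1, hξ2⟩ := Finset.mem_filter.1 hξ
    obtain ⟨f, h1, h2, h3, h4⟩ := mem_NF.1 hξ1
    refine mem_RS h1 h2 h3 fun i => ?_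
    by_cases hi : (i : ℕ) = 0
    · rw [hb]
      simp only [hi, if_true]
      exact coeff_zero_bound hm h1 h2 h4 h3 hξ2
    · rw [hb]
      simp only [hi, if_false]
      exact coeff_bound h1 h2 h4 i
  have h1 : ((NF m T).filter fun ξ => ‖ξ‖ ≤ B).card ≤ (∏ i, (2 * b i + 1)) * m :=
    (Finset.card_le_card hsub).trans (card_RS m b)
  have h2 : (∏ i, (2 * b i + 1)) * T ≤ (3 * 2 ^ m) ^ m * B * T ^ Mm m := by
    set i₀ : Fin m := ⟨0, hm⟩ with hi₀
    rw [← Finset.mul_prod_erase Finset.univ _ (Finset.mem_univ i₀)]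
    have hb0 : b i₀ = B * T ^ (m - 1) := by
      rw [hb]
      simp [hi₀]
    have h3 : (2 * b i₀ + 1) * T ≤ 3 * 2 ^ m * B * T ^ (m - (i₀ : ℕ)) := by
      have h4 : T ^ (m - (i₀ : ℕ)) = T ^ (m - 1) * T := by
        rw [← pow_succ]
        congr 1
        simp only [hi₀]
        omega
      have h5 : 1 ≤ B * T ^ (m - 1) := Nat.one_le_iff_ne_zero.2 (by positivity)
      have h6 : 1 ≤ 2 ^ m := Nat.one_le_two_pow
      rw [h4, hb0]
      calc (2 * (B * T ^ (m - 1)) + 1) * T ≤ (3 * (B * T ^ (m - 1))) * T := Nat.mul_le_mul_right _ (by omega)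
        _ ≤ (3 * (B * T ^ (m - 1))) * T * 2 ^ m := Nat.le_mul_of_pos_right _ (by positivity)
        _ = _ := by ring
    have h7 : ∏ i ∈ Finset.univ.erase i₀, (2 * b i + 1) ≤ ∏ i ∈ Finset.univ.erase i₀, (3 * 2 ^ m * T ^ (m - (i : ℕ))) := by
      refine Finset.prod_le_prod' fun i hi => ?_
      have hi0 : (i : ℕ) ≠ 0 := fun h => Finset.ne_of_mem_erase hi (Fin.ext h)
      have h8 : b i = 2 ^ m * T ^ (m - (i : ℕ)) := by
        rw [hb]
        simp only [hi0, if_false]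
      have h9 : 1 ≤ 2 ^ m * T ^ (m - (i : ℕ)) := Nat.one_le_iff_ne_zero.2 (by positivity)
      rw [h8]
      nlinarith
    have h10 : (3 * 2 ^ m) ^ m * T ^ Mm m = (3 * 2 ^ m * T ^ (m - (i₀ : ℕ))) *
        ∏ i ∈ Finset.univ.erase i₀, (3 * 2 ^ m * T ^ (m - (i : ℕ))) := by
      rw [Finset.mul_prod_erase Finset.univ (fun i : Fin m => 3 * 2 ^ m * T ^ (m - (i : ℕ))) (Finset.mem_univ i₀),
        Finset.prod_mul_distrib, Finset.prod_const, Finset.card_univ, Fintype.card_fin, Finset.prod_pow_eq_pow_sum]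
      rfl
    calc (2 * b i₀ + 1) * (∏ i ∈ Finset.univ.erase i₀, (2 * b i + 1)) * T
        = ((2 * b i₀ + 1) * T) * ∏ i ∈ Finset.univ.erase i₀, (2 * b i + 1) := by ring
      _ ≤ (3 * 2 ^ m * B * T ^ (m - (i₀ : ℕ))) * ∏ i ∈ Finset.univ.erase i₀, (3 * 2 ^ m * T ^ (m - (i : ℕ))) :=
          Nat.mul_le_mul h3 h7
      _ = B * ((3 * 2 ^ m * T ^ (m - (i₀ : ℕ))) * ∏ i ∈ Finset.univ.erase i₀, (3 * 2 ^ m * T ^ (m - (i : ℕ)))) := by
          ring
      _ = B * ((3 * 2 ^ m) ^ m * T ^ Mm m) := by rw [h10]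
      _ = _ := by ring
  have h3 : ((NF m T).filter fun ξ => ‖ξ‖ ≤ B).card * T ≤ (3 * 2 ^ m) ^ m * B * T ^ Mm m * m := by
    calc _ ≤ (∏ i, (2 * b i + 1)) * m * T := Nat.mul_le_mul_right _ h1
      _ = (∏ i, (2 * b i + 1)) * T * m := by ring
      _ ≤ _ := Nat.mul_le_mul_right _ h2
  calc (((NF m T).filter fun ξ => ‖ξ‖ ≤ B).card : ℝ) * T
      = ((((NF m T).filter fun ξ => ‖ξ‖ ≤ B).card * T : ℕ) : ℝ) := by push_cast; ring
    _ ≤ (((3 * 2 ^ m) ^ m * B * T ^ Mm m * m : ℕ) : ℝ) := by exact_mod_cast h3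
    _ = _ := by push_cast; ring

end Pool.Agent.Y916.Sl
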