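import Pool.Agent.Y916.Sl.Ell
import Pool.Agent.Y916.ET

/-!
# Elliptic logarithms at points of number fields: tuples and windows
-/

set_option autoImplicit false

open Module PowerSeries

namespace Pool.Agent.Y916.Sl

open Pool.Agent.Y113 Pool.Agent.Y916.AW Pool.Agent.Y916.Al Pool.Agent.Y916.Hy Pool.Agent.Y916.Sa
open scoped PeriodPair

/-- all determinations in terms of the chosen ones -/
theorem detE (a b : ℚ) (L : PeriodPair) {α p l : ℂ} (hp : p ∉ L.lattice) (h : ℘[L] p = α) (hl : Complex.exp l = α)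
    {K : IntermediateField ℚ ℂ} (M : Submodule K ℂ) (hM : ∀ (j : Fin 5) (n : ℤ), (n : ℂ) * perV L j ∈ M)
    (i : Tau (me a b)) : ∃ c : K, c ≠ 0 ∧ trip L p l (fe a b i) - c * xE a b L α i ∈ M := by
  obtain ⟨hD1, hD2⟩ := pf_spec L hp h
  obtain ⟨ε, m₁, m₂, hε, q1, q2⟩ := qp' L hD1 hp (by rw [h, hD2])
  have hε0 : (ε : K) ≠ 0 := by
    rcases hε with h | h <;> rw [h] <;> norm_num
  rcases i with ⟨i, j⟩ | u
  · obtain rfl : i = 0 := Subsingleton.elim _ _
    obtain ⟨j, hj⟩ := j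
    have hj2 : j < 2 := by
      have : me a b 0 = 2 := by simp [me, Fe_deg]
      omega
    interval_cases j
    · refine ⟨(ε : K), hε0, ?_⟩
      have e1 : xE a b L α (Sum.inl ⟨0, ⟨0, hj⟩⟩) = pf L α := rfl
      have e4 : trip L p l (fe a b (Sum.inl ⟨0, ⟨0, hj⟩⟩)) - ((ε : K) : ℂ) * pf L α =
          (m₁ : ℂ) * perV L 0 + (m₂ : ℂ) * perV L 1 := by
        change p - _ = (m₁ : ℂ) * L.ω₁ + (m₂ : ℂ) * L.ω₂
        push_cast
        linear_combination q1
      rw [e1, e4]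
      exact add_mem (hM _ _) (hM _ _)
    · refine ⟨(ε : K), hε0, ?_⟩
      have e1 : xE a b L α (Sum.inl ⟨0, ⟨1, hj⟩⟩) = zeta L (pf L α) := rfl
      have e4 : trip L p l (fe a b (Sum.inl ⟨0, ⟨1, hj⟩⟩)) - ((ε : K) : ℂ) * zeta L (pf L α) =
          ((2 * m₁ : ℤ) : ℂ) * perV L 2 + ((2 * m₂ : ℤ) : ℂ) * perV L 3 := by
        change zeta L p - _ = ((2 * m₁ : ℤ) : ℂ) * zeta L (L.ω₁ / 2) + ((2 * m₂ : ℤ) : ℂ) * zeta L (L.ω₂ / 2)
        rw [q2]
        push_cast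
        ring
      rw [e1, e4]
      exact add_mem (hM _ _) (hM _ _)
  · refine ⟨1, one_ne_zero, ?_⟩
    have hα0 : α ≠ 0 := by
      rw [← hl]
      exact Complex.exp_ne_zero _
    obtain ⟨n, hn⟩ : ∃ n : ℤ, l = Complex.log α + n * (2 * Real.pi * Complex.I) :=
      Complex.exp_eq_exp_iff_exists_int.1 (by rw [hl, Complex.exp_log hα0])
    have e1 : xE a b L α (Sum.inr u) = Complex.log α := rfl
    have e3 : trip L p l (fe a b (Sum.inr u)) - ((1 : K) : ℂ) * Complex.log α = (n : ℂ) * perV L 4 := by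
      change l - _ = (n : ℂ) * (2 * Real.pi * Complex.I)
      rw [hn]
      push_cast
      ring
    rw [e1, e3]
    exact hM _ _

/-- **Tuples** -/
theorem ellN (hvalc : S_valcS) (hwpc : S_wpc) (L : PeriodPair) (a b : ℚ) (ha : L.g₂ = a) (hb : L.g₃ = b)
    {m r : ℕ} (η : Fin (m + 1) → ℂ) (hη : ∀ j, IsAlgebraic ℚ (η j)) (hη0 : η 0 = 1) (θ : Fin r → ℕ)
    (hθ : Function.Injective θ) (k δ d D : ℕ) :
    ∃ c : ℝ, 0 < c ∧ ∃ C : ℝ, 0 ≤ C ∧ ∀ V : Submodule ℚ ℂ, Module.Finite ℚ V → finrank ℚ V ≤ D → ∀ T : ℕ, 1 ≤ T →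
      {n : Fin k → Fin (m + 1) → ℤ | (∀ i l, |n i l| ≤ T) ∧ ∃ p t : Fin k × Fin r → ℂ, (∀ q, p q ∉ L.lattice ∧
        ℘[L] (p q) = (∑ l, (n q.1 l : ℂ) * η l) + θ q.2 ∧ Complex.exp (t q) = (∑ l, (n q.1 l : ℂ) * η l) + θ q.2) ∧
        RelL δ d V fun x : (Fin k × Fin r) × Fin 3 => trip L (p x.1) (t x.1) x.2}.Finite ∧
      ({n : Fin k → Fin (m + 1) → ℤ | (∀ i l, |n i l| ≤ T) ∧ ∃ p t : Fin k × Fin r → ℂ, (∀ q, p q ∉ L.lattice ∧
        ℘[L] (p q) = (∑ l, (n q.1 l : ℂ) * η l) + θ q.2 ∧ Complex.exp (t q) = (∑ l, (n q.1 l : ℂ) * η l) + θ q.2) ∧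
        RelL δ d V fun x : (Fin k × Fin r) × Fin 3 => trip L (p x.1) (t x.1) x.2}.ncard : ℝ) ≤
        C * (T : ℝ) ^ (((k * (m + 1) : ℕ) : ℝ) - c) := by
  classical
  have hab : a ^ 3 - 27 * b ^ 2 ≠ 0 := by
    have h1 := disc_ne Pool.Agent.Y153.HE.t_qp L
    rw [ha, hb] at h1
    exact_mod_cast h1
  have hF := Fe_good a b hab
  obtain ⟨c, hc, C, hC, hcount⟩ := lattice_A (vS (Pe a b) (me a b)) (inp_e a b hvalc hF) (xE a b L) (DmE L)
    (fun m => by
      obtain ⟨E, hE⟩ := linkE a b hwpc L ha hb hF m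
      exact ⟨_, _, E, hE.toA⟩) η hη hη0 θ hθ k δ d (D + 5)
  refine ⟨c, hc, C, hC, fun V hV hVD T hT => ?_⟩
  set V' : Submodule ℚ ℂ := V ⊔ Submodule.span ℚ (Set.range (perV L)) with hV'
  have hU : finrank ℚ (Submodule.span ℚ (Set.range (perV L))) ≤ 5 := by
    have := finrank_range_le_card (R := ℚ) (perV L)
    rwa [Fintype.card_fin] at this
  have hUf : Module.Finite ℚ (Submodule.span ℚ (Set.range (perV L))) :=
    FiniteDimensional.span_of_finite ℚ (Set.finite_range _)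
  have hV'f : Module.Finite ℚ V' := Submodule.finite_sup _ _
  have hV'd : finrank ℚ V' ≤ D + 5 :=
    (Submodule.finrank_add_le_finrank_add_finrank _ _).trans (add_le_add hVD hU)
  obtain ⟨hfin, hcard⟩ := hcount V' hV'f hV'd T hT
  have hsub : {n : Fin k → Fin (m + 1) → ℤ | (∀ i l, |n i l| ≤ T) ∧ ∃ p t : Fin k × Fin r → ℂ, (∀ q, p q ∉ L.lattice ∧
        ℘[L] (p q) = (∑ l, (n q.1 l : ℂ) * η l) + θ q.2 ∧ Complex.exp (t q) = (∑ l, (n q.1 l : ℂ) * η l) + θ q.2) ∧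
        RelL δ d V fun x : (Fin k × Fin r) × Fin 3 => trip L (p x.1) (t x.1) x.2} ⊆
      {n : Fin k → Fin (m + 1) → ℤ | (∀ i l, |n i l| ≤ T) ∧ (∀ i j, DmE L ((∑ l, (n i l : ℂ) * η l) + θ j)) ∧
        RelA δ d V' fun p : (Fin k × Fin r) × Tau (me a b) => xE a b L ((∑ l, (n p.1.1 l : ℂ) * η l) + θ p.1.2) p.2} := by
    rintro n ⟨hn, p, t, hpt, K, hKf, hKd, P, hP0, hPd, hPc, hPv⟩
    have hVV : Submodule.span K (V : Set ℂ) ≤ Submodule.span K (V' : Set ℂ) :=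
      Submodule.span_mono fun z hz => Submodule.mem_sup_left hz
    refine ⟨hn, fun i j => pf_spec L (hpt (i, j)).1 (hpt (i, j)).2.1, K, hKf, hKd,
      fun q => trip L (p q.1) (t q.1) (fe a b q.2), fun q => ?_, ?_⟩
    · refine detE a b L (hpt q.1).1 (hpt q.1).2.1 (hpt q.1).2.2 _ (fun j n => ?_) q.2
      refine Submodule.subset_span (Submodule.mem_sup_right ?_)
      have h4 : (n : ℂ) * perV L j = (n : ℚ) • perV L j := by
        rw [Algebra.smul_def]
        simp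
      rw [h4]
      exact Submodule.smul_mem _ _ (Submodule.subset_span ⟨j, rfl⟩)
    · let e : (Fin k × Fin r) × Tau (me a b) ≃ (Fin k × Fin r) × Fin 3 := (Equiv.refl _).prodCongr (fe a b)
      refine ⟨MvPolynomial.rename e.symm P, ?_, (MvPolynomial.totalDegree_rename_le _ _).trans hPd, fun s => ?_, ?_⟩
      · intro h
        exact hP0 (MvPolynomial.rename_injective _ e.symm.injective (h.trans (map_zero _).symm))
      · by_cases hs : (MvPolynomial.rename e.symm P).coeff s = 0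
        · rw [hs]
          exact Submodule.zero_mem _
        · obtain ⟨u, hu, hu2⟩ := MvPolynomial.coeff_rename_ne_zero _ _ _ hs
          rw [← hu, MvPolynomial.coeff_rename_mapDomain _ e.symm.injective]
          exact hVV (hPc u)
      · rw [MvPolynomial.aeval_rename, ← hPv]
        congr 2
        funext x
        simp [e]
  exact ⟨hfin.subset hsub, le_trans (by exact_mod_cast Set.ncard_le_ncard hsub hfin) hcard⟩

/-- **Windows** -/
theorem ellW (hvalc : S_valcS) (hwpc : S_wpc) (L : PeriodPair) (a b : ℚ) (ha : L.g₂ = a) (hb : L.g₃ = b)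
    (r m A d δ τ : ℕ) :
    ∃ E : ℕ, ∀ (H : ℕ) (ξ : ℂ), ((H : ℝ) + 2) ^ E ≤ ‖ξ‖ → Ht m A ξ → ∀ w : Fin τ → ℂ, ∃ S : Finset ℕ,
      (S.card : Cardinal) ≤ τ + 1 + Algebra.trdeg ℚ (IntermediateField.adjoin ℚ (Set.range (perV L))) ∧
      ∀ n : Fin r → ℕ, Function.Injective n → (∀ i, 1 ≤ n i ∧ n i ≤ H ∧ n i ∉ S) →
      ∀ p l : Fin r → ℂ, (∀ i, p i ∉ L.lattice ∧ ℘[L] (p i) = ξ + n i ∧ Complex.exp (l i) = ξ + n i) →
      ∀ K : IntermediateField ℚ ℂ, FiniteDimensional ℚ K → finrank ℚ K ≤ d →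
      ∀ P : MvPolynomial ((Fin τ ⊕ Fin 5) ⊕ Fin r × Fin 3) K, P.totalDegree ≤ δ →
        MvPolynomial.aeval (Sum.elim (Sum.elim w (perV L)) fun x => trip L (p x.1) (l x.1) x.2) P = 0 →
        MvPolynomial.aeval (Sum.elim (fun j => MvPolynomial.C (Sum.elim w (perV L) j)) MvPolynomial.X) P
          = (0 : MvPolynomial (Fin r × Fin 3) ℂ) := by
  classical
  have hab : a ^ 3 - 27 * b ^ 2 ≠ 0 := by
    have h1 := disc_ne Pool.Agent.Y153.HE.t_qp L
    rw [ha, hb] at h1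
    exact_mod_cast h1
  have hF := Fe_good a b hab
  obtain ⟨E₁, hE₁⟩ := linkE a b hwpc L ha hb hF m
  obtain ⟨E, hE⟩ := windowHt (vS (Pe a b) (me a b)) (inp_e a b hvalc hF) (xE a b L) (DmE L) (perV L) m _ E₁ hE₁
    r d δ τ A
  refine ⟨E, fun H ξ hξ hHt w => ?_⟩
  obtain ⟨S, hS, hwin⟩ := hE H ξ hξ hHt w
  refine ⟨S, hS, fun n hn hnb p l hpl K hKf hKd P hPd hPv => ?_⟩
  let e : Fin r × Tau (me a b) ≃ Fin r × Fin 3 := (Equiv.refl _).prodCongr (fe a b)
  have h9 := hwin n hn (fun i => ⟨(hnb i).1, (hnb i).2.1, (hnb i).2.2, pf_spec L (hpl i).1 (hpl i).2.1⟩) K hKf hKd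
    (fun q => trip L (p q.1) (l q.1) (fe a b q.2)) (fun q => by
      refine detE a b L (hpl q.1).1 (hpl q.1).2.1 (hpl q.1).2.2 _ (fun j n => ?_) q.2
      have h4 : (n : ℂ) * perV L j = (n : K) • perV L j := by
        rw [Algebra.smul_def]
        simp
      rw [h4]
      exact Submodule.smul_mem _ _ (Submodule.subset_span (Set.mem_insert_of_mem _ ⟨Sum.inr j, rfl⟩)))
    (MvPolynomial.rename (Sum.map id e.symm) P) ((MvPolynomial.totalDegree_rename_le _ _).trans hPd) (by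
      rw [MvPolynomial.aeval_rename, ← hPv]
      congr 2
      funext x
      rcases x with i | x
      · rfl
      · simp [e])
  rw [MvPolynomial.aeval_rename] at h9
  have h10 := congrArg (MvPolynomial.rename e) h9
  rw [map_zero] at h10
  rw [MvPolynomial.aeval_def] at h10 ⊢
  have h11 := MvPolynomial.eval₂_comp_left (MvPolynomial.rename (R := ℂ) e).toRingHom
    (algebraMap K (MvPolynomial (Fin r × Tau (me a b)) ℂ))
    (Sum.elim (fun j => MvPolynomial.C (Sum.elim w (perV L) j)) MvPolynomial.X ∘ Sum.map id e.symm) P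
  refine Eq.trans ?_ (h11.symm.trans h10)
  congr 1
  · refine RingHom.ext fun x => ?_
    change MvPolynomial.C (x : ℂ) = MvPolynomial.rename e (MvPolynomial.C (x : ℂ))
    rw [MvPolynomial.rename_C]
  · funext x
    rcases x with i | x
    · simp
    · simp

end Pool.Agent.Y916.Sl
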