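import Pool.Agent.Y916.Sl.DegT
import Pool.Agent.Y916.Sl.EllT
import Pool.Agent.Y916.Sl.SalT

/-!
# Algebraic integers of bounded degree: elliptic logarithms and hyperelliptic integrals
-/

set_option autoImplicit false

open Module PowerSeries

namespace Pool.Agent.Y916.Sl

open Pool.Agent.Y113 Pool.Agent.Y916.AW Pool.Agent.Y916.Al Pool.Agent.Y916.Hy Pool.Agent.Y916.Sa
open scoped PeriodPair

/-- algebraic integers of degree at most `m` with all conjugates at most `T` -/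
theorem aint_of {m : ℕ} {T : ℝ} (hT : 0 ≤ T) {ξ : ℂ} (hint : IsIntegral ℤ ξ) (hdeg : (minpoly ℚ ξ).natDegree ≤ m)
    (hr : ∀ z : ℂ, Polynomial.aeval z (minpoly ℚ ξ) = 0 → ‖z‖ ≤ T) : AInt m T ξ := by
  have hmin : minpoly ℚ ξ = (minpoly ℤ ξ).map (algebraMap ℤ ℚ) := minpoly.isIntegrallyClosed_eq_field_fractions' ℚ hint
  have hmon : (minpoly ℤ ξ).Monic := minpoly.monic hint
  have hd : (minpoly ℤ ξ).natDegree = (minpoly ℚ ξ).natDegree := by
    rw [hmin, hmon.natDegree_map]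
  refine ⟨Polynomial.X ^ (m - (minpoly ℤ ξ).natDegree) * minpoly ℤ ξ, (Polynomial.monic_X_pow _).mul hmon, ?_, ?_, ?_⟩
  · rw [(Polynomial.monic_X_pow _).natDegree_mul hmon, Polynomial.natDegree_X_pow]
    omega
  · rw [map_mul, minpoly.aeval, mul_zero]
  · intro z hz
    rw [map_mul, map_pow, Polynomial.aeval_X] at hz
    rcases mul_eq_zero.1 hz with h | h
    · rw [pow_eq_zero_iff'.1 h |>.1, norm_zero]
      exact hT
    · refine hr z ?_
      rw [hmin]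
      exact (Polynomial.aeval_map_algebraMap ℚ z _).trans h

/-- **Elliptic tuples, bounded degree** -/
theorem ellD (hvalc : S_valcS) (hwpc : S_wpc) (L : PeriodPair) (a b : ℚ) (ha : L.g₂ = a) (hb : L.g₃ = b)
    (m : ℕ) {r : ℕ} (θ : Fin r → ℕ) (hθ : Function.Injective θ) (k δ d D : ℕ) :
    ∃ c : ℝ, 0 < c ∧ ∃ C : ℝ, 0 ≤ C ∧ ∀ V : Submodule ℚ ℂ, Module.Finite ℚ V → finrank ℚ V ≤ D → ∀ T : ℕ, 1 ≤ T →
      {α : Fin k → ℂ | (∀ i, AInt m T (α i)) ∧ ∃ p t : Fin k × Fin r → ℂ, (∀ q, p q ∉ L.lattice ∧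
        ℘[L] (p q) = α q.1 + θ q.2 ∧ Complex.exp (t q) = α q.1 + θ q.2) ∧
        RelL δ d V fun x : (Fin k × Fin r) × Fin 3 => trip L (p x.1) (t x.1) x.2}.Finite ∧
      ({α : Fin k → ℂ | (∀ i, AInt m T (α i)) ∧ ∃ p t : Fin k × Fin r → ℂ, (∀ q, p q ∉ L.lattice ∧
        ℘[L] (p q) = α q.1 + θ q.2 ∧ Complex.exp (t q) = α q.1 + θ q.2) ∧
        RelL δ d V fun x : (Fin k × Fin r) × Fin 3 => trip L (p x.1) (t x.1) x.2}.ncard : ℝ) ≤
        C * (T : ℝ) ^ (((k * Mm m : ℕ) : ℝ) - c) := by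
  classical
  have hab : a ^ 3 - 27 * b ^ 2 ≠ 0 := by
    have h1 := disc_ne Pool.Agent.Y153.HE.t_qp L
    rw [ha, hb] at h1
    exact_mod_cast h1
  have hF := Fe_good a b hab
  obtain ⟨c, hc, C, hC, hcount⟩ := deg_A (vS (Pe a b) (me a b)) (inp_e a b hvalc hF) (xE a b L) (DmE L) m (by
      obtain ⟨E, hE⟩ := linkE a b hwpc L ha hb hF m
      exact ⟨_, _, E, hE.toA⟩) θ hθ k δ d (D + 5)
  refine ⟨c, hc, C, hC, fun V hV hVD T hT => ?_⟩
  set V' : Submodule ℚ ℂ := V ⊔ Submodule.span ℚ (Set.range (perV L)) with hV'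
  have hU : finrank ℚ (Submodule.span ℚ (Set.range (perV L))) ≤ 5 := by
    have := finrank_range_le_card (R := ℚ) (perV L)
    rwa [Fintype.card_fin] at this
  have hUf : Module.Finite ℚ (Submodule.span ℚ (Set.range (perV L))) :=
    FiniteDimensional.span_of_finite ℚ (Set.finite_range _)
  have hV'f : Module.Finite ℚ V' := Submodule.finite_sup _ _
  have hV'd : finrank ℚ V' ≤ D + 5 :=
    (Submodule.finrank_add_le_finrank_add_finrank _ _).trans (add_le_add hVD hU)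
  obtain ⟨hfin, hcard⟩ := hcount V' hV'f hV'd T hT
  have hsub : {α : Fin k → ℂ | (∀ i, AInt m T (α i)) ∧ ∃ p t : Fin k × Fin r → ℂ, (∀ q, p q ∉ L.lattice ∧
        ℘[L] (p q) = α q.1 + θ q.2 ∧ Complex.exp (t q) = α q.1 + θ q.2) ∧
        RelL δ d V fun x : (Fin k × Fin r) × Fin 3 => trip L (p x.1) (t x.1) x.2} ⊆
      {α : Fin k → ℂ | (∀ i, AInt m T (α i)) ∧ (∀ i j, DmE L (α i + θ j)) ∧
        RelA δ d V' fun p : (Fin k × Fin r) × Tau (me a b) => xE a b L (α p.1.1 + θ p.1.2) p.2} := by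
    rintro α ⟨hn, p, t, hpt, K, hKf, hKd, P, hP0, hPd, hPc, hPv⟩
    have hVV : Submodule.span K (V : Set ℂ) ≤ Submodule.span K (V' : Set ℂ) :=
      Submodule.span_mono fun z hz => Submodule.mem_sup_left hz
    refine ⟨hn, fun i j => pf_spec L (hpt (i, j)).1 (hpt (i, j)).2.1, K, hKf, hKd,
      fun q => trip L (p q.1) (t q.1) (fe a b q.2), fun q => ?_, ?_⟩
    · refine detE a b L (hpt q.1).1 (hpt q.1).2.1 (hpt q.1).2.2 _ (fun j n => ?_) q.2
      refine Submodule.subset_span (Submodule.mem_sup_right ?_)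
      have h4 : (n : ℂ) * perV L j = (n : ℚ) • perV L j := by
        rw [Algebra.smul_def]
        simp
      rw [h4]
      exact Submodule.smul_mem _ _ (Submodule.subset_span ⟨j, rfl⟩)
    · let e : (Fin k × Fin r) × Tau (me a b) ≃ (Fin k × Fin r) × Fin 3 := (Equiv.refl _).prodCongr (fe a b)
      refine ⟨MvPolynomial.rename e.symm P, ?_, (MvPolynomial.totalDegree_rename_le _ _).trans hPd, fun s => ?_, ?_⟩
      · intro h
        exact hP0 (MvPolynomial.rename_injective _ e.symm.injective (h.trans (map_zero _).symm))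
      · by_cases hs : (MvPolynomial.rename e.symm P).coeff s = 0
        · rw [hs]
          exact Submodule.zero_mem _
        · obtain ⟨u, hu, hu2⟩ := MvPolynomial.coeff_rename_ne_zero _ _ _ hs
          rw [← hu, MvPolynomial.coeff_rename_mapDomain _ e.symm.injective]
          exact hVV (hPc u)
      · rw [MvPolynomial.aeval_rename, ← hPv]
        congr 2
        funext x
        simp [e]
  exact ⟨hfin.subset hsub, le_trans (by exact_mod_cast Set.ncard_le_ncard hsub hfin) hcard⟩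

/-- **Hyperelliptic tuples, bounded degree** -/
theorem tuplesD (hvalc : S_valcS) (hsqi : S_sqi) (hprim : S_prim) {s : ℕ} (F q : Fin s → Polynomial ℤ)
    (hG : ∀ a, GoodP (F a) (q a)) (hD : Dist F) {u₀ : ℂ} (hu₀ : u₀ ≠ 0) {R : ℝ} {S : Fin s → ℂ → ℂ}
    {Φ : Id F q → ℂ → ℂ} (hP : IsPrim F q u₀ R S Φ) (m : ℕ) {r : ℕ} (θ : Fin r → ℕ) (hθ : Function.Injective θ)
    (k δ d D : ℕ) :
    ∃ c : ℝ, 0 < c ∧ ∃ C : ℝ, 0 ≤ C ∧ ∀ V : Submodule ℚ ℂ, Module.Finite ℚ V → finrank ℚ V ≤ D → ∀ T : ℕ, 1 ≤ T →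
      {α : Fin k → ℂ | (∀ i, AInt m T (α i)) ∧ (∀ i j, DmS u₀ R (α i + θ j)) ∧
        RelA δ d V fun p : (Fin k × Fin r) × Tau (mm F q) => xP F q Φ (α p.1.1 + θ p.1.2) p.2}.Finite ∧
      ({α : Fin k → ℂ | (∀ i, AInt m T (α i)) ∧ (∀ i j, DmS u₀ R (α i + θ j)) ∧
        RelA δ d V fun p : (Fin k × Fin r) × Tau (mm F q) => xP F q Φ (α p.1.1 + θ p.1.2) p.2}.ncard : ℝ) ≤
        C * (T : ℝ) ^ (((k * Mm m : ℕ) : ℝ) - c) := by
  obtain ⟨κ, -, hlink⟩ := linkS' hprim hsqi hG hu₀ hP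
  refine deg_A (vS (PP F q) (mm F q)) (inp_s hvalc hG hD) (xP F q Φ) (DmS u₀ R) m ?_ θ hθ k δ d D
  obtain ⟨E, hE⟩ := hlink _ (kp κ) (by
    rintro _ ⟨p, rfl⟩
    exact ⟨Sum.inl p, rfl⟩) ⟨Sum.inr (), rfl⟩ m
  exact ⟨_, _, E, hE.toA⟩

end Pool.Agent.Y916.Sl
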