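import Pool.Agent.Y916.Sl.Stm
import Pool.Agent.Y916.Sl.Wnd
import Pool.Agent.Y916.SW
import Pool.Agent.Y916.EW3

/-!
# Elliptic logarithms at points of number fields
-/

set_option autoImplicit false

open Module PowerSeries

namespace Pool.Agent.Y916.Sl

open Pool.Agent.Y113 Pool.Agent.Y916.AW Pool.Agent.Y916.Al Pool.Agent.Y916.Hy Pool.Agent.Y916.Sa
open scoped PeriodPair

/-- the values -/
noncomputable def vS {s : ℕ} (P : Fin s → Polynomial ℤ) (m : Fin s → ℕ) (ξ : ℂ) (g : ℕ) (i : Tau m) : ℂ :=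
  evc (1 / ξ) (Yg P m g i)

theorem inpA_of (h : S_valcS) {s : ℕ} {P : Fin s → Polynomial ℤ} {m : Fin s → ℕ}
    (hP : ∀ a, GoodO (P a) ∧ m a < (P a).natDegree) (hLI : LI P m) : InpA (vS P m) := by
  intro N Δ d A
  obtain ⟨E, hE⟩ := h s P m hP hLI N Δ d A
  refine ⟨E, fun H K ξ X hKf hKd hPt hξ hX g hg hgb Q hQ hQ0 => ?_⟩
  have h1 : (1 : ℝ) ≤ ((H : ℝ) + 2) ^ E := one_le_pow₀ (by linarith [(Nat.cast_nonneg H : (0 : ℝ) ≤ H)])
  have hξ0 : (0 : ℝ) < ‖(ξ : ℂ)‖ := by linarith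
  have hξ1 : ξ ≠ 0 := by
    rintro rfl
    simp at hξ0
  have hX0 : 0 ≤ X := by
    obtain ⟨u, w, -, -, -, -, hσ⟩ := hPt
    exact (norm_nonneg _).trans (hσ (algebraMap K ℂ)).1
  have hPt' := Pt.inv hX0 hξ1 hPt 1 le_rfl
  have e1 : (1 / (((1 : ℕ) : K) * ξ) : K) = 1 / ξ := by simp
  have e2 : (((1 : ℕ) : ℝ)) * X = X := by simp
  rw [e1, e2] at hPt'
  have e3 : ((1 / ξ : K) : ℂ) = 1 / (ξ : ℂ) := by push_cast; ring
  refine hE H K (1 / ξ) X hKf hKd (one_div_ne_zero hξ1) hPt' ?_ ?_ g hg hgb Q hQ ?_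
  · rw [e3, norm_div, norm_one, div_mul_eq_mul_div, one_mul, div_le_one hξ0]
    exact hξ
  · rw [e3, norm_div, norm_one, div_pow, one_pow, mul_one_div, div_le_one (by positivity)]
    exact hX
  · rw [e3]
    exact hQ0

/-- the logarithm -/
theorem evc_log {z : ℂ} {g : ℕ} (h : ‖(g : ℂ) * z‖ < 1) :
    evc z (PowerSeries.mk fun i => - ((-(g : ℚ)) ^ i / i)) = Complex.log (1 + g * z) := by
  have h1 := Complex.hasSum_taylorSeries_log h
  rw [← h1.tsum_eq, evc]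
  refine tsum_congr fun n => ?_
  rw [coeff_mk]
  push_cast
  rw [pow_succ, mul_pow, neg_pow (g : ℂ) n]
  ring

/-- adjoining a square root -/
theorem sqrt_field (K : IntermediateField ℚ ℂ) (hK : FiniteDimensional ℚ K) (s : ℂ) (hs : s ^ 2 ∈ K) :
    ∃ K' : IntermediateField ℚ ℂ, K ≤ K' ∧ s ∈ K' ∧ FiniteDimensional ℚ K' ∧ finrank ℚ K' ≤ finrank ℚ K * 2 := by
  have hmon : (Polynomial.X ^ 2 - Polynomial.C (⟨s ^ 2, hs⟩ : K)).Monic := Polynomial.monic_X_pow_sub_C _ two_ne_zero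
  have hroot : Polynomial.aeval s (Polynomial.X ^ 2 - Polynomial.C (⟨s ^ 2, hs⟩ : K)) = 0 := by
    rw [map_sub, map_pow, Polynomial.aeval_X, Polynomial.aeval_C]
    exact sub_self _
  have hint : IsIntegral K s := ⟨_, hmon, hroot⟩
  set L : IntermediateField K ℂ := IntermediateField.adjoin K {s} with hL
  have hLf : FiniteDimensional K L := IntermediateField.adjoin.finiteDimensional hint
  have hd : finrank K L ≤ 2 := by
    rw [hL, IntermediateField.adjoin.finrank hint]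
    refine (Polynomial.natDegree_le_of_dvd (minpoly.dvd K s hroot) hmon.ne_zero).trans ?_
    rw [Polynomial.natDegree_X_pow_sub_C]
  refine ⟨L.restrictScalars ℚ, ?_, ?_, ?_, ?_⟩
  · intro x hx
    exact L.algebraMap_mem ⟨x, hx⟩
  · exact IntermediateField.mem_adjoin_simple_self K s
  · exact (FiniteDimensional.trans ℚ K L : FiniteDimensional ℚ L)
  · have h1 : finrank ℚ K * finrank K L = finrank ℚ L := finrank_mul_finrank ℚ K L
    have h2 : finrank ℚ (L.restrictScalars ℚ) = finrank ℚ L := rfl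
    rw [h2, ← h1]
    exact Nat.mul_le_mul_left _ hd

section Ell

variable (a b : ℚ)

/-- the polynomial -/
noncomputable def Pe (_ : Fin 1) : Polynomial ℤ := Fe a b

/-- the number of differentials -/
noncomputable def me (_ : Fin 1) : ℕ := (Fe a b).natDegree - 1

theorem li_e (hF : Good (Fe a b)) : LI (Pe a b) (me a b) := by
  have hG : ∀ _ : Fin 1, GoodP (Fe a b) 1 := fun _ =>
    { sf := hF.sf
      odd := hF.odd
      pos := hF.pos
      qsf := by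
        rw [Polynomial.map_one]
        exact squarefree_one
      qpos := by simp
      cop := by
        rw [Polynomial.map_one]
        exact isCoprime_one_right
      deg := by
        have := hF.deg
        omega }
  have hD : Dist (fun _ : Fin 1 => Fe a b) := fun i j hij => absurd (Subsingleton.elim i j) hij
  have h := lisT 1 (fun _ => Fe a b) (fun _ => 1) hG hD
  have e1 : (fun a_1 : Fin 1 => (fun _ => Fe a b) a_1 * (fun _ : Fin 1 => (1 : Polynomial ℤ)) a_1 ^ 2) = Pe a b := by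
    funext i
    simp [Pe]
  have e2 : (fun a_1 : Fin 1 => ((fun _ => Fe a b) a_1).natDegree - 1 +
      ((fun _ : Fin 1 => (1 : Polynomial ℤ)) a_1).natDegree) = me a b := by
    funext i
    simp [me]
  rw [e1, e2] at h
  exact h

theorem inp_e (h : S_valcS) (hF : Good (Fe a b)) : InpA (vS (Pe a b) (me a b)) :=
  inpA_of h (fun _ => ⟨⟨hF.odd, hF.deg, hF.pos⟩, by
    have := hF.deg
    simp only [me, Pe]
    omega⟩) (li_e a b hF)

/-- the indices -/
noncomputable def fe : Tau (me a b) ≃ Fin 3 :=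
  ((Equiv.uniqueSigma (fun i : Fin 1 => Fin (me a b i))).sumCongr (Equiv.refl Unit)).trans
    (((finCongr (show me a b default = 2 by simp [me, Fe_deg])).sumCongr (Equiv.ofUnique Unit (Fin 1))).trans
      finSumFinEquiv)

open Classical in
/-- a chosen elliptic logarithm of `α` -/
noncomputable def pf (L : PeriodPair) (α : ℂ) : ℂ :=
  if h : ∃ p, p ∉ L.lattice ∧ ℘[L] p = α then h.choose else 0

theorem pf_spec (L : PeriodPair) {α p : ℂ} (hp : p ∉ L.lattice) (h : ℘[L] p = α) :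
    pf L α ∉ L.lattice ∧ ℘[L] (pf L α) = α := by
  have h1 : ∃ p, p ∉ L.lattice ∧ ℘[L] p = α := ⟨p, hp, h⟩
  unfold pf
  rw [dif_pos h1]
  exact h1.choose_spec

/-- the three numbers at `α` -/
noncomputable def xE (L : PeriodPair) (α : ℂ) (i : Tau (me a b)) : ℂ :=
  trip L (pf L α) (Complex.log α) (fe a b i)

/-- the domain -/
def DmE (L : PeriodPair) (α : ℂ) : Prop := pf L α ∉ L.lattice ∧ ℘[L] (pf L α) = α

theorem combE {K : IntermediateField ℚ ℂ} (L : PeriodPair) (S : Set ℂ) (i : Fin 5) (n : ℤ) :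
    (n : ℂ) * perV L i ∈ Submodule.span K (insert 1 (insert (0 : ℂ) (S ∪ Set.range (perV L)))) := by
  have h4 : (n : ℂ) * perV L i = (n : K) • perV L i := by
    rw [Algebra.smul_def]
    simp
  rw [h4]
  exact Submodule.smul_mem _ _ (Submodule.subset_span (by simp))

theorem linkE (hwpc : S_wpc) (L : PeriodPair) (ha : L.g₂ = a) (hb : L.g₃ = b) (hF : Good (Fe a b)) (m : ℕ) :
    ∃ E, LinkU (vS (Pe a b) (me a b)) (xE a b L) (DmE L) (perV L) m (m * 2) E := by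
  have hdeg : (Fe a b).natDegree - 1 = 2 := by rw [Fe_deg]
  set i₀ : Fin ((Fe a b).natDegree - 1) := ⟨0, by omega⟩ with hi₀
  set i₁ : Fin ((Fe a b).natDegree - 1) := ⟨1, by omega⟩ with hi₁
  obtain ⟨E, hE⟩ := hwpc L a b ha hb hF i₀ i₁ rfl rfl
  refine ⟨E + 1, fun K₁ ξ hK₁f hK₁d => ?_⟩
  obtain ⟨s, hs⟩ := IsAlgClosed.exists_pow_nat_eq (1 / (ξ : ℂ)) (show 0 < 2 by norm_num)
  obtain ⟨K, hKK, hsK, hKf, hKd⟩ := sqrt_field K₁ hK₁f s (by
    rw [hs]
    exact K₁.div_mem K₁.one_mem ξ.2)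
  refine ⟨K, hKf, hKd.trans (Nat.mul_le_mul_right _ hK₁d), Complex.log (ξ : ℂ), fun g hg hgξ hD i => ?_⟩
  have hg0 : (0 : ℝ) ≤ g := Nat.cast_nonneg g
  have hgE : ((g : ℝ) + 2) ^ E ≤ ‖(ξ : ℂ)‖ := (pow_le_pow_right₀ (by linarith) (by omega)).trans hgξ
  have hg2 : (g : ℝ) + 2 ≤ ‖(ξ : ℂ)‖ := (le_self_pow₀ (by linarith) (by omega)).trans hgξ
  have hξn : 0 < ‖(ξ : ℂ)‖ := by linarith
  have hξ0 : (ξ : ℂ) ≠ 0 := norm_pos_iff.1 hξn
  have hs0 : s ≠ 0 := by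
    rintro rfl
    rw [zero_pow two_ne_zero] at hs
    exact one_div_ne_zero hξ0 hs.symm
  have hα : 1 / s ^ 2 + (g : ℂ) = (ξ : ℂ) + g := by
    rw [hs, one_div_one_div]
  obtain ⟨h1, h2, h3⟩ := hE g s hs0 (by
    rw [← norm_pow, hs, norm_div, norm_one, div_mul_eq_mul_div, one_mul, div_le_one hξn]
    exact hgE)
  rw [hα] at h2
  obtain ⟨ε, m₁, m₂, hε, q1, q2⟩ := qp' L h1 hD.1 (by rw [hD.2, h2])
  have hε0 : (ε : K) ≠ 0 := by
    rcases hε with h | h <;> rw [h] <;> norm_num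
  have hsK0 : (⟨s, hsK⟩ : K) ≠ 0 := fun h => hs0 (congrArg (fun x : K => (x : ℂ)) h)
  have hsp : ∀ (j : Fin 5) (n : ℤ), (n : ℂ) * perV L j ∈
      Submodule.span K (insert 1 (insert (Complex.log (ξ : ℂ)) (Set.range (perV L)))) := by
    intro j n
    have h4 : (n : ℂ) * perV L j = (n : K) • perV L j := by
      rw [Algebra.smul_def]
      simp
    rw [h4]
    exact Submodule.smul_mem _ _ (Submodule.subset_span (by simp))
  rw [hs] at h3 q1 q2
  rcases i with ⟨i, j⟩ | u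
  · obtain rfl : i = 0 := Subsingleton.elim _ _
    obtain ⟨j, hj⟩ := j
    have hj2 : j < 2 := by
      have : me a b 0 = 2 := by simp [me, Fe_deg]
      omega
    interval_cases j
    · refine ⟨(ε : K) * (⟨s, hsK⟩ : K) / 2, div_ne_zero (mul_ne_zero hε0 hsK0) two_ne_zero, ?_⟩
      have e1 : xE a b L ((ξ : ℂ) + g) (Sum.inl ⟨0, ⟨0, hj⟩⟩) = pf L ((ξ : ℂ) + g) := rfl
      have e2 : vS (Pe a b) (me a b) (ξ : ℂ) g (Sum.inl ⟨0, ⟨0, hj⟩⟩) = evc (1 / (ξ : ℂ)) (Yf (Fe a b) g (Sum.inl i₀)) := rfl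
      have e3 : (((ε : K) * (⟨s, hsK⟩ : K) / 2 : K) : ℂ) = (ε : ℂ) * s / 2 := by
        push_cast
        rfl
      have e4 : pf L ((ξ : ℂ) + g) - (ε : ℂ) * s / 2 * evc (1 / (ξ : ℂ)) (Yf (Fe a b) g (Sum.inl i₀)) =
          (m₁ : ℂ) * perV L 0 + (m₂ : ℂ) * perV L 1 := by
        change _ = (m₁ : ℂ) * L.ω₁ + (m₂ : ℂ) * L.ω₂
        linear_combination q1
      rw [e1, e2, e3, e4]
      exact add_mem (hsp _ _) (hsp _ _)
    · refine ⟨-((ε : K) / (2 * (⟨s, hsK⟩ : K))), neg_ne_zero.2 (div_ne_zero hε0 (mul_ne_zero two_ne_zero hsK0)), ?_⟩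
      have e1 : xE a b L ((ξ : ℂ) + g) (Sum.inl ⟨0, ⟨1, hj⟩⟩) = zeta L (pf L ((ξ : ℂ) + g)) := rfl
      have e2 : vS (Pe a b) (me a b) (ξ : ℂ) g (Sum.inl ⟨0, ⟨1, hj⟩⟩) = evc (1 / (ξ : ℂ)) (Yf (Fe a b) g (Sum.inl i₁)) := rfl
      have e3 : ((-((ε : K) / (2 * (⟨s, hsK⟩ : K))) : K) : ℂ) = -((ε : ℂ) / (2 * s)) := by
        push_cast
        rfl
      have e4 : zeta L (pf L ((ξ : ℂ) + g)) - -((ε : ℂ) / (2 * s)) * evc (1 / (ξ : ℂ)) (Yf (Fe a b) g (Sum.inl i₁)) =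
          ((2 * m₁ : ℤ) : ℂ) * perV L 2 + ((2 * m₂ : ℤ) : ℂ) * perV L 3 := by
        change _ = ((2 * m₁ : ℤ) : ℂ) * zeta L (L.ω₁ / 2) + ((2 * m₂ : ℤ) : ℂ) * zeta L (L.ω₂ / 2)
        rw [q2, h3]
        ring
      rw [e1, e2, e3, e4]
      exact add_mem (hsp _ _) (hsp _ _)
  · refine ⟨1, one_ne_zero, ?_⟩
    have hz : ‖(g : ℂ) * (1 / (ξ : ℂ))‖ < 1 := by
      rw [norm_mul, norm_div, norm_one, Complex.norm_natCast, mul_one_div, div_lt_one hξn]
      linarith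
    have hz0 : (1 + (g : ℂ) * (1 / (ξ : ℂ))) ≠ 0 := by
      intro h
      have h5 : (g : ℂ) * (1 / (ξ : ℂ)) = -1 := by linear_combination h
      rw [h5] at hz
      simp at hz
    have hp0 : (ξ : ℂ) + g ≠ 0 := by
      intro h
      apply hz0
      have h5 : (1 + (g : ℂ) * (1 / (ξ : ℂ))) = ((ξ : ℂ) + g) / ξ := by field_simp
      rw [h5, h, zero_div]
    obtain ⟨k, hk⟩ := log_mul_mem hξ0 hz0 (l := Complex.log ((ξ : ℂ) + g)) (by
      rw [Complex.exp_log hp0]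
      field_simp)
    have e1 : xE a b L ((ξ : ℂ) + g) (Sum.inr u) = Complex.log ((ξ : ℂ) + g) := rfl
    have e2 : vS (Pe a b) (me a b) (ξ : ℂ) g (Sum.inr u) = Complex.log (1 + (g : ℂ) * (1 / (ξ : ℂ))) := evc_log hz
    have e3 : Complex.log ((ξ : ℂ) + g) - ((1 : K) : ℂ) * Complex.log (1 + (g : ℂ) * (1 / (ξ : ℂ))) =
        Complex.log (ξ : ℂ) + (k : ℂ) * perV L 4 := by
      change _ = Complex.log (ξ : ℂ) + (k : ℂ) * (2 * Real.pi * Complex.I)
      rw [← hk]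
      push_cast
      ring
    rw [e1, e2, e3]
    exact add_mem (Submodule.subset_span (by simp)) (hsp _ _)

end Ell

end Pool.Agent.Y916.Sl
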