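import Pool.Agent.Y916.Sl.Ell
import Pool.Agent.Y916.SFin

/-!
# Integrals of the three kinds on hyperelliptic curves at points of number fields: the link with the power series
-/

set_option autoImplicit false

open Module PowerSeries

namespace Pool.Agent.Y916.Sl

open Pool.Agent.Y113 Pool.Agent.Y916.AW Pool.Agent.Y916.Al Pool.Agent.Y916.Hy Pool.Agent.Y916.Sa Pool.Agent.Y916.Fld

/-- the indices of the differentials -/
abbrev Id {s : ℕ} (F q : Fin s → Polynomial ℤ) : Type := Σ a, Fin ((F a).natDegree - 1 + (q a).natDegree)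

/-- the domain: outside a disc and a ray -/
def DmS (u₀ : ℂ) (R : ℝ) (x : ℂ) : Prop := R < ‖x‖ ∧ x / u₀ ∈ Complex.slitPlane

/-- `S a` is a square root of `F a` and `Φ (a, j)` a primitive of `x^j / (q_a S_a)` -/
def IsPrim {s : ℕ} (F q : Fin s → Polynomial ℤ) (u₀ : ℂ) (R : ℝ) (S : Fin s → ℂ → ℂ) (Φ : Id F q → ℂ → ℂ) : Prop :=
  ∀ x : ℂ, R < ‖x‖ → x / u₀ ∈ Complex.slitPlane → (∀ a, ContinuousAt (S a) x ∧ S a x ^ 2 = Polynomial.aeval x (F a)) ∧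
    ∀ p : Id F q, HasDerivAt (Φ p) (x ^ (p.2 : ℕ) / (Polynomial.aeval x (q p.1) * S p.1 x)) x

/-- the numbers at `x` -/
noncomputable def xP {s : ℕ} (F q : Fin s → Polynomial ℤ) (Φ : Id F q → ℂ → ℂ) (x : ℂ) : Tau (mm F q) → ℂ
  | Sum.inl p => Φ p x
  | Sum.inr _ => Complex.log x

theorem natDeg_PP {s : ℕ} {F q : Fin s → Polynomial ℤ} (hG : ∀ a, GoodP (F a) (q a)) (a : Fin s) :
    (PP F q a).natDegree = (F a).natDegree + 2 * (q a).natDegree := by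
  have hF : F a ≠ 0 := by
    intro h
    have := (hG a).pos
    rw [h] at this
    simp at this
  have hq : q a ≠ 0 := by
    intro h
    have := (hG a).qpos
    rw [h] at this
    simp at this
  unfold PP
  rw [Polynomial.natDegree_mul hF (pow_ne_zero 2 hq), Polynomial.natDegree_pow]

/-- the constants -/
theorem primK (hprim : S_prim) {s : ℕ} {F q : Fin s → Polynomial ℤ} (hG : ∀ a, GoodP (F a) (q a)) {u₀ : ℂ}
    (hu₀ : u₀ ≠ 0) {R : ℝ} {S : Fin s → ℂ → ℂ} {Φ : Id F q → ℂ → ℂ} (hP : IsPrim F q u₀ R S Φ) :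
    ∃ (R' : ℝ) (κ : Id F q → ℂ), ∀ x : ℂ, R' < ‖x‖ → x / u₀ ∈ Complex.slitPlane → ∀ p : Id F q,
      ((PP F q p.1).leadingCoeff : ℂ) * (Φ p x - κ p) ^ 2 =
        x ^ (2 * ((p.2 : ℕ) : ℤ) + 2 - (PP F q p.1).natDegree) * evc (1 / x) (US (PP F q p.1) 0 p.2) ^ 2 := by
  classical
  have h1 : ∀ p : Id F q, ∃ (R' : ℝ) (κ : ℂ), ∀ x : ℂ, R' < ‖x‖ → x / u₀ ∈ Complex.slitPlane →
      ((PP F q p.1).leadingCoeff : ℂ) * (Φ p x - κ) ^ 2 =
        x ^ (2 * ((p.2 : ℕ) : ℤ) + 2 - (PP F q p.1).natDegree) * evc (1 / x) (US (PP F q p.1) 0 p.2) ^ 2 := by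
    rintro ⟨a, j⟩
    refine hprim (PP F q a) (goodO (hG a)).1 u₀ hu₀ R (fun x => Polynomial.aeval x (q a) * S a x) (Φ ⟨a, j⟩) j ?_ ?_
    · have h2 := natDeg_PP hG a
      have h3 := (hG a).deg
      have h4 : (j : ℕ) < (F a).natDegree - 1 + (q a).natDegree := j.2
      have h5 := (hG a).odd.pos
      omega
    · intro x hx hx2
      obtain ⟨h2, h3⟩ := hP x hx hx2
      refine ⟨(Polynomial.continuous_aeval (q a)).continuousAt.mul (h2 a).1, ?_, h3 ⟨a, j⟩⟩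
      unfold PP
      rw [mul_pow, (h2 a).2, map_mul, map_pow]
      ring
  choose R' κ h using h1
  refine ⟨∑ p, |R' p|, κ, fun x hx hx2 p => h p x ?_ hx2⟩
  refine lt_of_le_of_lt ?_ hx
  exact (le_abs_self _).trans (Finset.single_le_sum (f := fun p => |R' p|) (fun _ _ => abs_nonneg _) (Finset.mem_univ p))

theorem linkS' (hprim : S_prim) (hsqi : S_sqi) {s : ℕ} {F q : Fin s → Polynomial ℤ} (hG : ∀ a, GoodP (F a) (q a))
    {u₀ : ℂ} (hu₀ : u₀ ≠ 0) {R : ℝ} {S : Fin s → ℂ → ℂ} {Φ : Id F q → ℂ → ℂ} (hP : IsPrim F q u₀ R S Φ) :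
    ∃ κ : Id F q → ℂ, (∃ R' : ℝ, ∀ x : ℂ, R' < ‖x‖ → x / u₀ ∈ Complex.slitPlane → ∀ p : Id F q,
      ((PP F q p.1).leadingCoeff : ℂ) * (Φ p x - κ p) ^ 2 =
        x ^ (2 * ((p.2 : ℕ) : ℤ) + 2 - (PP F q p.1).natDegree) * evc (1 / x) (US (PP F q p.1) 0 p.2) ^ 2) ∧
      ∀ (υ : Type) (u : υ → ℂ), Set.range κ ⊆ Set.range u → 2 * Real.pi * Complex.I ∈ Set.range u → ∀ m : ℕ,
      ∃ E, LinkU (vS (PP F q) (mm F q)) (xP F q Φ) (DmS u₀ R) u m (m * 2 * 2 ^ s) E := by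
  classical
  have hO := fun a => (goodO (hG a)).1
  obtain ⟨R', κ, hκ⟩ := primK hprim hG hu₀ hP
  choose E hE using fun a => hsqi (PP F q a) (hO a)
  refine ⟨κ, ⟨R', hκ⟩, fun υ u hu hpi m => ?_⟩
  obtain ⟨N, hN⟩ := pow_unbounded_of_one_lt (2 * |R'| + 2) (show (1 : ℝ) < 3 by norm_num)
  refine ⟨∑ a, E a + N + 2, fun K₁ ξ hK₁f hK₁d => ?_⟩
  obtain ⟨z, hz⟩ := IsAlgClosed.exists_pow_nat_eq (1 / (ξ : ℂ)) (show 0 < 2 by norm_num)
  obtain ⟨K₂, hKK, hzK, hK₂f, hK₂d⟩ := sqrt_field K₁ hK₁f z (by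
    rw [hz]
    exact K₁.div_mem K₁.one_mem ξ.2)
  set Θ : Finset ℂ := Finset.univ.image fun a => ((√((PP F q a).leadingCoeff : ℝ) : ℝ) : ℂ) with hΘ
  obtain ⟨K, hK0, hK1, hKf, hKd⟩ := field K₂ hK₂f 2 Θ (by
    intro w hw
    rw [hΘ, Finset.mem_image] at hw
    obtain ⟨a, -, rfl⟩ := hw
    have h0 : (0 : ℝ) ≤ (PP F q a).leadingCoeff := by exact_mod_cast (hO a).pos.le
    exact sqrt_deg _ (PP F q a).leadingCoeff h0 rfl)
  have hzK' : z ∈ K := hK0 hzK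
  have hsa : ∀ a, ((√((PP F q a).leadingCoeff : ℝ) : ℝ) : ℂ) ∈ K := fun a =>
    hK1 (IntermediateField.subset_adjoin ℚ _ (by simp [hΘ]))
  have hΘc : Θ.card ≤ s := Finset.card_image_le.trans (by rw [Finset.card_univ, Fintype.card_fin])
  refine ⟨K, hKf, hKd.trans (Nat.mul_le_mul (hK₂d.trans (Nat.mul_le_mul_right _ hK₁d))
    (Nat.pow_le_pow_right (by norm_num) hΘc)), Complex.log (ξ : ℂ), fun g hg hgξ hD i => ?_⟩
  have hg0 : (0 : ℝ) ≤ g := Nat.cast_nonneg g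
  have hg1 : (1 : ℝ) ≤ g := by exact_mod_cast hg
  have hgp : ∀ n ≤ ∑ a, E a + N + 2, ((g : ℝ) + 2) ^ n ≤ ‖(ξ : ℂ)‖ := fun n hn =>
    (pow_le_pow_right₀ (by linarith) hn).trans hgξ
  have hg2 : ((g : ℝ) + 2) ^ 2 ≤ ‖(ξ : ℂ)‖ := hgp 2 (by omega)
  have hg3 : 2 * (g : ℝ) ≤ ‖(ξ : ℂ)‖ := by nlinarith
  have hξn : 0 < ‖(ξ : ℂ)‖ := by linarith
  have hξ0 : (ξ : ℂ) ≠ 0 := norm_pos_iff.1 hξn
  have hz0 : z ≠ 0 := by
    rintro rfl
    rw [zero_pow two_ne_zero] at hz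
    exact one_div_ne_zero hξ0 hz.symm
  have hbig : R' < ‖(ξ : ℂ) + g‖ := by
    have h1 : ‖(ξ : ℂ)‖ - g ≤ ‖(ξ : ℂ) + g‖ := by
      have := norm_sub_norm_le (ξ : ℂ) (-(g : ℂ))
      rw [norm_neg, Complex.norm_natCast, sub_neg_eq_add] at this
      exact this
    have h2 : (3 : ℝ) ^ N ≤ ‖(ξ : ℂ)‖ :=
      (pow_le_pow_left₀ (by norm_num) (by linarith) N).trans (hgp N (by omega))
    have h3 := le_abs_self R'
    linarith
  have hgz : ‖(g : ℂ) * (1 / (ξ : ℂ))‖ < 1 := by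
    rw [norm_mul, norm_div, norm_one, Complex.norm_natCast, mul_one_div, div_lt_one hξn]
    linarith
  have hgz0 : (1 + (g : ℂ) * (1 / (ξ : ℂ))) ≠ 0 := by
    intro h
    have h5 : (g : ℂ) * (1 / (ξ : ℂ)) = -1 := by linear_combination h
    rw [h5] at hgz
    simp at hgz
  have hx : (ξ : ℂ) + g = ξ * (1 + (g : ℂ) * (1 / (ξ : ℂ))) := by field_simp
  have hx0 : (ξ : ℂ) + g ≠ 0 := by
    rw [hx]
    exact mul_ne_zero hξ0 hgz0
  have hsub : ∀ c : ℂ, c ∈ Set.range u → c ∈ Submodule.span K (insert 1 (insert (Complex.log (ξ : ℂ)) (Set.range u))) :=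
    fun c hc => Submodule.subset_span (Set.mem_insert_of_mem _ (Set.mem_insert_of_mem _ hc))
  rcases i with ⟨a, j⟩ | w
  · have hlp : (0 : ℝ) < (PP F q a).leadingCoeff := by exact_mod_cast (hO a).pos
    set lam : ℂ := ((√((PP F q a).leadingCoeff : ℝ) : ℝ) : ℂ) with hlam
    have hlam0 : lam ≠ 0 := by
      rw [hlam, Complex.ofReal_ne_zero]
      exact (Real.sqrt_pos.2 hlp).ne'
    have hlam2 : lam ^ 2 = ((PP F q a).leadingCoeff : ℂ) := by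
      rw [hlam, ← Complex.ofReal_pow, Real.sq_sqrt hlp.le]
      push_cast
      rfl
    set e : ℤ := 2 * ((j : ℕ) : ℤ) + 2 - (PP F q a).natDegree with he
    have h1 := hκ _ hbig hD.2 ⟨a, j⟩
    have hEa : ‖(1 / (ξ : ℂ))‖ * ((g : ℝ) + 2) ^ E a ≤ 1 := by
      rw [norm_div, norm_one, div_mul_eq_mul_div, one_mul, div_le_one hξn]
      refine hgp _ ?_
      have := Finset.single_le_sum (f := E) (fun _ _ => Nat.zero_le _) (Finset.mem_univ a)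
      omega
    have hj : (j : ℕ) < (PP F q a).natDegree - 1 := by
      have h2 := natDeg_PP hG a
      have h3 := (hG a).deg
      have h4 : (j : ℕ) < (F a).natDegree - 1 + (q a).natDegree := j.2
      have h5 := (hG a).odd.pos
      omega
    have h2 := hE a g (1 / (ξ : ℂ)) hEa j hj
    have h3 : 1 / (ξ : ℂ) / (1 + (g : ℂ) * (1 / (ξ : ℂ))) = 1 / ((ξ : ℂ) + g) := by
      rw [hx, div_div]
    rw [h3] at h2
    have h4 : (lam * (Φ ⟨a, j⟩ ((ξ : ℂ) + g) - κ ⟨a, j⟩)) ^ 2 =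
        (z ^ (-e) * evc (1 / (ξ : ℂ)) (US (PP F q a) g j)) ^ 2 := by
      have h5 : (z ^ (-e)) ^ 2 = (ξ : ℂ) ^ e := by
        rw [← zpow_natCast (z ^ (-e)) 2, ← zpow_mul, mul_comm, zpow_mul, zpow_natCast, hz, one_div, inv_zpow, zpow_neg,
          inv_inv]
      rw [mul_pow, mul_pow, hlam2, h5, h2, ← mul_assoc, ← mul_zpow, ← hx]
      exact h1
    have hzz : (⟨z, hzK'⟩ : K) ≠ 0 := fun h => hz0 (congrArg (fun x : K => (x : ℂ)) h)
    have hll : (⟨lam, hsa a⟩ : K) ≠ 0 := fun h => hlam0 (congrArg (fun x : K => (x : ℂ)) h)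
    have e1 : xP F q Φ ((ξ : ℂ) + g) (Sum.inl ⟨a, j⟩) = Φ ⟨a, j⟩ ((ξ : ℂ) + g) := rfl
    have e2 : vS (PP F q) (mm F q) (ξ : ℂ) g (Sum.inl ⟨a, j⟩) = evc (1 / (ξ : ℂ)) (US (PP F q a) g j) := rfl
    rw [e1, e2]
    rcases sq_eq_sq_iff_eq_or_eq_neg.1 h4 with h5 | h5
    · refine ⟨(⟨z, hzK'⟩ : K) ^ (-e) / ⟨lam, hsa a⟩, div_ne_zero (zpow_ne_zero _ hzz) hll, ?_⟩
      have e3 : (((⟨z, hzK'⟩ : K) ^ (-e) / ⟨lam, hsa a⟩ : K) : ℂ) = z ^ (-e) / lam := by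
        push_cast
        rfl
      have e4 : Φ ⟨a, j⟩ ((ξ : ℂ) + g) - z ^ (-e) / lam * evc (1 / (ξ : ℂ)) (US (PP F q a) g j) = κ ⟨a, j⟩ := by
        field_simp
        linear_combination h5
      rw [e3, e4]
      exact hsub _ (hu ⟨_, rfl⟩)
    · refine ⟨-((⟨z, hzK'⟩ : K) ^ (-e) / ⟨lam, hsa a⟩), neg_ne_zero.2 (div_ne_zero (zpow_ne_zero _ hzz) hll), ?_⟩
      have e3 : ((-((⟨z, hzK'⟩ : K) ^ (-e) / ⟨lam, hsa a⟩) : K) : ℂ) = -(z ^ (-e) / lam) := by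
        push_cast
        rfl
      have e4 : Φ ⟨a, j⟩ ((ξ : ℂ) + g) - -(z ^ (-e) / lam) * evc (1 / (ξ : ℂ)) (US (PP F q a) g j) = κ ⟨a, j⟩ := by
        field_simp
        linear_combination h5
      rw [e3, e4]
      exact hsub _ (hu ⟨_, rfl⟩)
  · refine ⟨1, one_ne_zero, ?_⟩
    obtain ⟨k, hk⟩ := log_mul_mem hξ0 hgz0 (l := Complex.log ((ξ : ℂ) + g)) (by
      rw [Complex.exp_log hx0]
      exact hx)
    have e1 : xP F q Φ ((ξ : ℂ) + g) (Sum.inr w) = Complex.log ((ξ : ℂ) + g) := rfl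
    have e2 : vS (PP F q) (mm F q) (ξ : ℂ) g (Sum.inr w) = Complex.log (1 + (g : ℂ) * (1 / (ξ : ℂ))) := evc_log hgz
    have e3 : Complex.log ((ξ : ℂ) + g) - ((1 : K) : ℂ) * Complex.log (1 + (g : ℂ) * (1 / (ξ : ℂ))) =
        Complex.log (ξ : ℂ) + (k : K) • (2 * Real.pi * Complex.I : ℂ) := by
      rw [Algebra.smul_def]
      rw [← sub_eq_zero]
      push_cast
      have h5 : (algebraMap K ℂ) (k : K) = (k : ℂ) := by simp
      rw [h5]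
      linear_combination hk
    rw [e1, e2, e3]
    exact add_mem (Submodule.subset_span (by simp)) (Submodule.smul_mem _ _ (hsub _ hpi))

end Pool.Agent.Y916.Sl
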